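import Pool.Agent.X185.LB.Defs
set_option autoImplicit false
set_option linter.all false

open Finset Filter Topology

noncomputable section

namespace Pool.Agent.X185.LB

theorem V_le {lam : ℕ → ℝ} {a b : ℝ} {f : ℝ → ℝ} {C : ℝ}
    (h : ∀ F : Fam a b, F.sum lam f ≤ C) : V lam a b f ≤ ENNReal.ofReal C :=
  iSup_le fun F => ENNReal.ofReal_le_ofReal (h F)

theorem le_V {lam : ℕ → ℝ} {a b : ℝ} {f : ℝ → ℝ} (F : Fam a b) :
    ENNReal.ofReal (F.sum lam f) ≤ V lam a b f := le_iSup (fun F : Fam a b => ENNReal.ofReal (F.sum lam f)) F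

theorem sum_le_of_V {lam : ℕ → ℝ} {a b : ℝ} {f : ℝ → ℝ} (hf : V lam a b f < ⊤) (F : Fam a b) :
    F.sum lam f ≤ (V lam a b f).toReal := by
  have h := le_V (lam := lam) (f := f) F
  exact (ENNReal.ofReal_le_iff_le_toReal hf.ne).mp h

theorem sum_le_of_V' {lam : ℕ → ℝ} {a b : ℝ} {f : ℝ → ℝ} {C : ℝ} (hC : 0 ≤ C)
    (hf : V lam a b f ≤ ENNReal.ofReal C) (F : Fam a b) : F.sum lam f ≤ C := by
  have h := (le_V (lam := lam) (f := f) F).trans hf
  exact (ENNReal.ofReal_le_ofReal_iff hC).mp h

section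
variable {lam : ℕ → ℝ} (h : IsLambda lam)
include h

theorem inv_nonneg' (i : ℕ) : 0 ≤ 1 / lam i := (one_div_pos.mpr (h.pos i)).le

theorem inv_anti {i j : ℕ} (hij : i ≤ j) : 1 / lam j ≤ 1 / lam i :=
  one_div_le_one_div_of_le (h.pos i) (h.mono hij)

theorem H_mono : Monotone (H lam) := by
  intro m n hmn
  unfold H
  exact sum_le_sum_of_subset_of_nonneg (range_subset_range.mpr hmn)
    (fun i _ _ => inv_nonneg' h i)

theorem H_nonneg (n : ℕ) : 0 ≤ H lam n := sum_nonneg fun i _ => inv_nonneg' h i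

theorem H_tendsto : Tendsto (H lam) atTop atTop :=
  (not_summable_iff_tendsto_nat_atTop_of_nonneg (fun i => inv_nonneg' h i)).mp h.div

/-- sums over shifted windows are smaller -/
theorem H_shift_le (M q : ℕ) : ∑ s ∈ range q, 1 / lam (M + s) ≤ H lam q :=
  sum_le_sum fun s _ => inv_anti h (Nat.le_add_left s M)

theorem H_add (M q : ℕ) : H lam (M + q) = H lam M + ∑ s ∈ range q, 1 / lam (M + s) := by
  unfold H; rw [sum_range_add]

theorem H_add_le (M q : ℕ) : H lam (M + q) ≤ H lam M + H lam q := by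
  rw [H_add h]; linarith [H_shift_le h M q]

theorem H_mul_le (k n : ℕ) : H lam (k * n) ≤ k * H lam n := by
  induction k with
  | zero => simp [H]
  | succ k ih =>
    rw [Nat.succ_mul]
    have := H_add_le h (k * n) n
    push_cast
    linarith

/-- concavity: `n H(q) ≤ q H(n)` for `n ≤ q` -/
theorem H_conc {n q : ℕ} (hnq : n ≤ q) : (n : ℝ) * H lam q ≤ q * H lam n := by
  obtain ⟨d, rfl⟩ := Nat.exists_eq_add_of_le hnq
  rw [H_add h]
  have h1 : ∑ s ∈ range d, 1 / lam (n + s) ≤ d * (1 / lam n) := by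
    have := sum_le_card_nsmul (range d) (fun s => 1 / lam (n + s)) (1 / lam n)
      (fun s _ => inv_anti h (Nat.le_add_right n s))
    simpa using this
  have h2 : (n : ℝ) * (1 / lam n) ≤ H lam n := by
    have := card_nsmul_le_sum (range n) (fun s => 1 / lam s) (1 / lam n)
      (fun s hs => inv_anti h (mem_range.mp hs).le)
    simpa [H] using this
  push_cast
  have h3 : (n : ℝ) * ∑ s ∈ range d, 1 / lam (n + s) ≤ n * (d * (1 / lam n)) :=
    mul_le_mul_of_nonneg_left h1 (Nat.cast_nonneg _)
  have h4 : (d : ℝ) * (n * (1 / lam n)) ≤ d * H lam n :=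
    mul_le_mul_of_nonneg_left h2 (Nat.cast_nonneg _)
  nlinarith

theorem shift_lambda (m : ℕ) : IsLambda (shift lam m) where
  pos i := h.pos _
  mono i j hij := h.mono (Nat.add_le_add_left hij m)
  div := by
    intro hs
    apply h.div
    have h2 : (fun i => 1 / shift lam m i) = fun i => (fun i => 1 / lam i) (i + m) := by
      funext i; simp only [shift]; rw [add_comm]
    rw [h2] at hs
    exact (summable_nat_add_iff m).mp hs

end

/-- Abel's inequality -/
theorem abel (z D : ℕ → ℝ) (B : ℝ) (hz : Antitone z) (hz0 : ∀ s, 0 ≤ z s)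
    (hB : ∀ n, ∑ s ∈ range n, D s ≤ B) (n : ℕ) : ∑ s ∈ range n, z s * D s ≤ B * z 0 := by
  have key : ∀ n, ∑ s ∈ range n, z s * D s ≤ B * z 0 - (B - ∑ s ∈ range n, D s) * z n := by
    intro n
    induction n with
    | zero => simp
    | succ n ih =>
      rw [sum_range_succ, sum_range_succ]
      have h1 := hB (n + 1)
      rw [sum_range_succ] at h1
      have h2 := hz (Nat.le_succ n)
      have h3 : (B - (∑ s ∈ range n, D s + D n)) * z (n + 1) ≤
          (B - (∑ s ∈ range n, D s + D n)) * z n :=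
        mul_le_mul_of_nonneg_left h2 (by linarith)
      linarith
  have h1 := key n
  have h2 : 0 ≤ (B - ∑ s ∈ range n, D s) * z n := mul_nonneg (by linarith [hB n]) (hz0 n)
  linarith

/-- block domination -/
theorem blocks {lam : ℕ → ℝ} (h : IsLambda lam) (y : ℕ → ℝ) (hy : Antitone y) (K S : ℕ) :
    ∑ k ∈ range (S * K), y k * (1 / lam k) ≤
      ∑ s ∈ range S, y (s * K) * (H lam ((s + 1) * K) - H lam (s * K)) := by
  induction S with
  | zero => simp
  | succ S ih =>
    rw [Nat.succ_mul, sum_range_add, sum_range_succ]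
    have h1 : ∑ x ∈ range K, y (S * K + x) * (1 / lam (S * K + x)) ≤
        y (S * K) * (H lam ((S + 1) * K) - H lam (S * K)) := by
      rw [Nat.succ_mul, H_add h, add_sub_cancel_left, mul_sum]
      exact sum_le_sum fun x _ => mul_le_mul_of_nonneg_right (hy (Nat.le_add_right _ _))
        (inv_nonneg' h _)
    linarith

/-- the gain of one generation -/
theorem gain {gam lam : ℕ → ℝ} (hg : IsLambda gam) (hl : IsLambda lam) (K : ℕ) (hK : 1 ≤ K)
    (ε A : ℝ) (hε : 0 < ε) (hA : 0 ≤ A)
    (hcond : ∀ n, H lam (K * n) ≤ ε * (K * H gam n) + A)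
    (y : ℕ → ℝ) (hy : Antitone y) (hy0 : ∀ k, 0 ≤ y k) (q : ℕ) (hq : ∀ k, q ≤ k → y k = 0)
    (δ : ℝ) (hδ : y 0 ≤ δ) (M r : ℕ) (hr : r < K) :
    (∑ k ∈ range q, y k * (1 / lam k) - (A + 2 * H lam K) * δ) / (ε * K) - δ * H gam M ≤
      ∑ k ∈ (range q).filter (fun k => k % K = r), y k * (1 / gam (M + k / K)) := by
  have hKr : (0 : ℝ) < K := by exact_mod_cast hK
  have hδ0 : 0 ≤ δ := (hy0 0).trans hδ
  have hHK : 0 ≤ H lam K := H_nonneg hl K
  set z : ℕ → ℝ := fun s => y ((s + 1) * K) with hz
  have hza : Antitone z := by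
    intro s t hst
    exact hy (Nat.mul_le_mul_right K (Nat.add_le_add_right hst 1))
  have hz0 : ∀ s, 0 ≤ z s := fun s => hy0 _
  have hzδ : ∀ s, z s ≤ δ := fun s => (hy (Nat.zero_le _)).trans hδ
  -- step 1
  have h1 : ∑ k ∈ range q, y k * (1 / lam k) ≤
      H lam K * δ + ∑ s ∈ range q, z s * (H lam ((s + 2) * K) - H lam ((s + 1) * K)) := by
    have h2 : ∑ k ∈ range q, y k * (1 / lam k) ≤ ∑ k ∈ range ((q + 1) * K), y k * (1 / lam k) := by
      apply sum_le_sum_of_subset_of_nonneg
      · apply range_subset_range.mpr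
        nlinarith
      · intro k _ _
        exact mul_nonneg (hy0 k) (inv_nonneg' hl k)
    have h3 := blocks hl y hy K (q + 1)
    rw [sum_range_succ'] at h3
    have h4 : y (0 * K) * (H lam ((0 + 1) * K) - H lam (0 * K)) ≤ H lam K * δ := by
      rw [Nat.zero_mul, Nat.zero_add, Nat.one_mul]
      have : H lam 0 = 0 := by simp [H]
      rw [this, sub_zero, mul_comm]
      exact mul_le_mul_of_nonneg_left hδ hHK
    have h5 : ∑ k ∈ range q, y ((k + 1) * K) * (H lam ((k + 1 + 1) * K) - H lam ((k + 1) * K)) =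
        ∑ s ∈ range q, z s * (H lam ((s + 2) * K) - H lam ((s + 1) * K)) := rfl
    linarith
  -- step 2
  have h2 : ∑ s ∈ range q, z s * ((H lam ((s + 2) * K) - H lam ((s + 1) * K)) -
      ε * K * (1 / gam s)) ≤ (A + H lam K) * z 0 := by
    apply abel z _ _ hza hz0
    intro n
    rw [sum_sub_distrib, ← mul_sum]
    have h3 : ∑ s ∈ range n, (H lam ((s + 2) * K) - H lam ((s + 1) * K)) =
        H lam ((n + 1) * K) - H lam K := by
      induction n with
      | zero => simp
      | succ n ih => rw [sum_range_succ, ih]; ring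
    rw [h3]
    have h4 : H lam ((n + 1) * K) ≤ H lam (K * n) + H lam K := by
      have := H_add_le hl (K * n) K
      have e : K * n + K = (n + 1) * K := by ring
      rwa [e] at this
    have h5 := hcond n
    have h6 : ∑ i ∈ range n, 1 / gam i = H gam n := rfl
    rw [h6]
    nlinarith
  have h3 : ∑ s ∈ range q, z s * ((H lam ((s + 2) * K) - H lam ((s + 1) * K)) -
      ε * K * (1 / gam s)) = ∑ s ∈ range q, z s * (H lam ((s + 2) * K) - H lam ((s + 1) * K)) -
      ε * K * ∑ s ∈ range q, z s * (1 / gam s) := by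
    rw [mul_sum, ← sum_sub_distrib]
    apply sum_congr rfl; intro s _; ring
  rw [h3] at h2
  have h4 : (A + H lam K) * z 0 ≤ (A + H lam K) * δ :=
    mul_le_mul_of_nonneg_left (hzδ 0) (by linarith)
  -- step 3: shift
  have h5 : ∑ s ∈ range q, z s * (1 / gam s) - δ * H gam M ≤
      ∑ s ∈ range q, z s * (1 / gam (M + s)) := by
    have h6 : ∑ s ∈ range q, z s * (1 / gam s) - ∑ s ∈ range q, z s * (1 / gam (M + s)) ≤
        δ * ∑ s ∈ range q, (1 / gam s - 1 / gam (M + s)) := by
      rw [← sum_sub_distrib, mul_sum]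
      apply sum_le_sum
      intro s _
      rw [← mul_sub]
      apply mul_le_mul_of_nonneg_right (hzδ s)
      have := inv_anti hg (Nat.le_add_left s M)
      linarith
    have h7 : ∑ s ∈ range q, (1 / gam s - 1 / gam (M + s)) ≤ H gam M := by
      rw [sum_sub_distrib]
      have h8 := H_add hg M q
      have h9 : H gam (M + q) ≥ H gam q := H_mono hg (Nat.le_add_left _ _)
      have h10 : ∑ x ∈ range q, 1 / gam x = H gam q := rfl
      linarith
    have h8 := mul_le_mul_of_nonneg_left h7 hδ0
    linarith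
  -- step 4: the class
  have h6 : ∑ s ∈ range q, z s * (1 / gam (M + s)) ≤
      ∑ k ∈ (range q).filter (fun k => k % K = r), y k * (1 / gam (M + k / K)) := by
    have h7 : ∑ s ∈ range q, z s * (1 / gam (M + s)) ≤
        ∑ s ∈ (range q).filter (fun s => s * K + r < q), y (s * K + r) * (1 / gam (M + s)) := by
      rw [sum_filter]
      apply sum_le_sum
      intro s _
      split_ifs with hs
      · apply mul_le_mul_of_nonneg_right _ (inv_nonneg' hg _)
        apply hy
        nlinarith
      · have : z s = 0 := by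
          apply hq
          have : (s + 1) * K = s * K + K := by ring
          omega
        rw [this, zero_mul]
    refine h7.trans (le_of_eq ?_)
    apply sum_bij (fun s _ => s * K + r)
    · intro s hs
      rw [mem_filter, mem_range] at hs ⊢
      refine ⟨hs.2, ?_⟩
      rw [Nat.mul_comm, Nat.mul_add_mod]
      exact Nat.mod_eq_of_lt hr
    · intro s _ t _ hst
      have : s * K = t * K := by omega
      exact Nat.eq_of_mul_eq_mul_right hK this
    · intro k hk
      rw [mem_filter, mem_range] at hk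
      refine ⟨k / K, ?_, ?_⟩
      · rw [mem_filter, mem_range]
        have h1 := Nat.div_add_mod k K
        have h2 : k / K ≤ k := Nat.div_le_self _ _
        refine ⟨by omega, ?_⟩
        rw [hk.2, Nat.mul_comm] at h1
        omega
      · have h1 := Nat.div_add_mod k K
        rw [hk.2, Nat.mul_comm] at h1
        exact h1
    · intro s _
      have : (s * K + r) / K = s := by
        rw [Nat.mul_comm, Nat.mul_add_div hK, Nat.div_eq_of_lt hr, add_zero]
      rw [this]
  have hεK : 0 < ε * K := by positivity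
  have h7 : (∑ k ∈ range q, y k * (1 / lam k) - (A + 2 * H lam K) * δ) / (ε * K) ≤
      ∑ s ∈ range q, z s * (1 / gam s) := by
    rw [div_le_iff₀ hεK]
    nlinarith
  linarith

end Pool.Agent.X185.LB
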