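import Mathlib
set_option autoImplicit false
set_option linter.all false

open Finset Filter Topology

noncomputable section

namespace Pool.Agent.X185.LB

/-- a `Λ`-sequence (indexed from `0`, so that `lam i` is `λ_{i+1}`) -/
structure IsLambda (lam : ℕ → ℝ) : Prop where
  pos : ∀ i, 0 < lam i
  mono : Monotone lam
  div : ¬ Summable (fun i => 1 / lam i)

/-- a finite family of non-overlapping closed subintervals `[s i, t i]`, `i < n`, of `[a, b]` -/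
structure Fam (a b : ℝ) where
  n : ℕ
  s : ℕ → ℝ
  t : ℕ → ℝ
  sub : ∀ i < n, a ≤ s i ∧ s i ≤ t i ∧ t i ≤ b
  nonov : ∀ i < n, ∀ j < n, i ≠ j → t i ≤ s j ∨ t j ≤ s i

/-- the Waterman sum of a family, in the given order -/
def Fam.sum {a b : ℝ} (F : Fam a b) (lam : ℕ → ℝ) (f : ℝ → ℝ) : ℝ :=
  ∑ i ∈ range F.n, |f (F.t i) - f (F.s i)| / lam i

/-- the Waterman variation -/
def V (lam : ℕ → ℝ) (a b : ℝ) (f : ℝ → ℝ) : ENNReal :=
  ⨆ F : Fam a b, ENNReal.ofReal (F.sum lam f)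

/-- `ΛBV` -/
def BV (lam : ℕ → ℝ) (a b : ℝ) : Set (ℝ → ℝ) := {f | V lam a b f < ⊤}

/-- the shifted sequence `Λ_(m)` -/
def shift (lam : ℕ → ℝ) (m : ℕ) : ℕ → ℝ := fun i => lam (m + i)

/-- `ΛBV_c` -/
def BVc (lam : ℕ → ℝ) (a b : ℝ) : Set (ℝ → ℝ) :=
  {f | f ∈ BV lam a b ∧ Tendsto (fun m => V (shift lam m) a b f) atTop (𝓝 0)}

/-- `∑_{i ≤ n} 1/λ_i` -/
def H (lam : ℕ → ℝ) (n : ℕ) : ℝ := ∑ i ∈ range n, 1 / lam i

end Pool.Agent.X185.LB
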