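import Pool.Agent.X185.LB.Nec
set_option autoImplicit false
set_option linter.all false

open Finset Filter Topology

noncomputable section

namespace Pool.Agent.X185.LB

theorem nec_unbdd {gam lam : ℕ → ℝ} (hg : IsLambda gam) (hl : IsLambda lam) {a b : ℝ} (hab : a < b)
    (hn : ¬ Crit gam lam) (hub : ∀ B, ∃ i, B ≤ gam i) : ¬ BV gam a b ⊆ BVc lam a b := by
  classical
  obtain ⟨ε0, h0, n, hn1, hn2, hn3, hn4⟩ := seqs hg hl hn hub
  have hGp : ∀ t, 0 < H gam (n t) := fun t => H_pos hg _ (hn1 t)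
  have hnr : ∀ t, (1 : ℝ) ≤ n t := fun t => by exact_mod_cast hn1 t
  obtain ⟨c, hc⟩ : ∃ c : ℕ → ℝ, ∀ t, c t = 1 / (4 ^ t * H gam (n t)) := ⟨_, fun t => rfl⟩
  obtain ⟨N, hN⟩ : ∃ N : ℕ → ℝ, ∀ t, N t = 4 ^ t * n t := ⟨_, fun t => rfl⟩
  have h4 : ∀ t : ℕ, (0 : ℝ) < 4 ^ t := fun t => by positivity
  have hc0 : ∀ t, 0 < c t := fun t => by
    rw [hc]; exact one_div_pos.mpr (mul_pos (h4 t) (hGp t))
  have hN0 : ∀ t, 0 < N t := fun t => by
    rw [hN]; exact mul_pos (h4 t) (by linarith [hnr t])
  have hcN' : ∀ t, c t * N t = n t / H gam (n t) := by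
    intro t
    rw [hc, hN]
    have := (hGp t).ne'
    have := (h4 t).ne'
    field_simp
  have hc8 : ∀ t, 8 * c (t + 1) ≤ c t := by
    intro t
    rw [hc, hc, ← mul_div_assoc, mul_one, div_le_div_iff₀ (mul_pos (h4 _) (hGp _))
      (mul_pos (h4 _) (hGp _)), pow_succ]
    have := mul_le_mul_of_nonneg_left (hn3 t) (h4 t).le
    linarith
  have hcN : ∀ t, 8 * (c t * N t) ≤ c (t + 1) * N (t + 1) := by
    intro t; rw [hcN', hcN']; exact hn4 t
  have hcG : ∀ t, c t * H gam (n t) = (1 / 4) ^ t := by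
    intro t
    rw [hc, one_div_pow]
    have := (hGp t).ne'
    have := (h4 t).ne'
    field_simp
  have hba : 0 < b - a := by linarith
  obtain ⟨f, hf⟩ : ∃ f : ℝ → ℝ, ∀ x, f x = gfun c N ((x - a) / (b - a)) := ⟨_, fun x => rfl⟩
  intro hsub
  -- f ∈ ΓBV
  have hfG : f ∈ BV gam a b := by
    have h3 : V gam a b f ≤ ENNReal.ofReal 24 := by
      apply V_le
      intro F
      obtain ⟨l, hl'⟩ : ∃ l : ℕ → ℝ, ∀ i, l i = (F.t i - F.s i) / (b - a) := ⟨_, fun i => rfl⟩
      have hl0 : ∀ i < F.n, 0 ≤ l i := by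
        intro i hi
        have := (F.sub i hi).2.1
        rw [hl']; exact div_nonneg (by linarith) hba.le
      have hlsum : ∑ i ∈ range F.n, l i ≤ 1 := by
        have h5 := total_length hab.le F
        have h6 : ∑ i ∈ range F.n, l i = (∑ i ∈ range F.n, (F.t i - F.s i)) / (b - a) := by
          rw [sum_div]; exact sum_congr rfl fun i _ => hl' i
        rw [h6, div_le_one hba]; exact h5
      have huv : ∀ i < F.n, |(F.t i - a) / (b - a) - (F.s i - a) / (b - a)| = l i := by
        intro i hi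
        have e : (F.t i - a) / (b - a) - (F.s i - a) / (b - a) = l i := by rw [hl']; ring
        rw [e, abs_of_nonneg (hl0 i hi)]
      obtain ⟨D, hD⟩ : ∃ D, D = (range F.n).filter (fun i => 0 < l i) := ⟨_, rfl⟩
      have hDmem : ∀ i ∈ D, i < F.n ∧ 0 < l i := by
        intro i hi; rw [hD, mem_filter, mem_range] at hi; exact hi
      have hex : ∀ i ∈ D, ∃ t, 1 ≤ N t * l i := by
        intro i hi
        have hli := (hDmem i hi).2
        obtain ⟨t, ht⟩ := pow_unbounded_of_one_lt (1 / l i) (by norm_num : (1 : ℝ) < 4)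
        refine ⟨t, ?_⟩
        rw [div_lt_iff₀ hli] at ht
        have h5 : (4 : ℝ) ^ t ≤ N t := by
          rw [hN]; exact le_mul_of_one_le_right (h4 t).le (hnr t)
        have h6 := mul_le_mul_of_nonneg_right h5 hli.le
        linarith
      obtain ⟨τ, hτ⟩ : ∃ τ : ℕ → ℕ, ∀ i ∈ D, 1 ≤ N (τ i) * l i ∧ ∀ t < τ i, N t * l i < 1 := by
        refine ⟨fun i => if h : ∃ t, 1 ≤ N t * l i then Nat.find h else 0, ?_⟩
        intro i hi
        have h := hex i hi
        simp only [dif_pos h]
        refine ⟨Nat.find_spec h, ?_⟩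
        intro t ht
        exact not_le.mp (Nat.find_min h ht)
      have hsum0 : F.sum gam f = ∑ i ∈ D, |f (F.t i) - f (F.s i)| * (1 / gam i) := by
        unfold Fam.sum
        rw [hD, sum_filter]
        apply sum_congr rfl
        intro i hi
        split_ifs with h
        · ring
        · have h5 := hl0 i (mem_range.mp hi)
          have h6 : l i = 0 := le_antisymm (not_lt.mp h) h5
          have h7 : F.t i = F.s i := by
            rw [hl', div_eq_zero_iff] at h6
            rcases h6 with h6 | h6 <;> linarith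
          rw [h7, sub_self, abs_zero, zero_div]
      obtain ⟨T, hT⟩ : ∃ T, ∀ i ∈ D, τ i ∈ range T := by
        refine ⟨(D.sup τ) + 1, fun i hi => ?_⟩
        rw [mem_range]
        exact Nat.lt_succ_of_le (le_sup hi)
      rw [hsum0, ← sum_fiberwise_of_maps_to hT]
      have hls : ∑ j ∈ range T, ∑ i ∈ D with τ i = j, l i ≤ 1 := by
        rw [sum_fiberwise_of_maps_to hT]
        refine le_trans ?_ hlsum
        apply sum_le_sum_of_subset_of_nonneg
        · rw [hD]; exact filter_subset _ _
        · intro i hi _; exact hl0 i (mem_range.mp hi)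
      have hclass : ∀ j ∈ range T, ∑ i ∈ D with τ i = j, |f (F.t i) - f (F.s i)| * (1 / gam i) ≤
          10 * (1 / 4) ^ j + 4 * ∑ i ∈ D with τ i = j, l i := by
        intro j _
        obtain ⟨Dj, hDj⟩ : ∃ Dj, Dj = D.filter (fun i => τ i = j) := ⟨_, rfl⟩
        rw [← hDj]
        have hDjm : ∀ i ∈ Dj, i ∈ D ∧ τ i = j := by
          intro i hi; rw [hDj, mem_filter] at hi; exact hi
        have hσ0 : 0 ≤ ∑ i ∈ Dj, l i := sum_nonneg fun i hi => (hDmem i (hDjm i hi).1).2.le
        have h5 := bath hg (n j) (hn1 j) Dj (fun _ => 1) (fun _ _ => zero_le_one)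
          (fun _ _ => le_refl _)
        simp only [one_mul] at h5
        have h6 : ∑ i ∈ Dj, (1 : ℝ) ≤ N j * ∑ i ∈ Dj, l i := by
          rw [mul_sum]
          apply sum_le_sum
          intro i hi
          have h7 := (hτ i (hDjm i hi).1).1
          rwa [(hDjm i hi).2] at h7
        have hnj : (0 : ℝ) < n j := by linarith [hnr j]
        have h7 : c j * ∑ i ∈ Dj, 1 / gam i ≤ (1 / 4) ^ j + ∑ i ∈ Dj, l i := by
          have h8 := mul_le_mul_of_nonneg_left h5 (hc0 j).le
          rw [← mul_assoc, hcG] at h8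
          have h9 : (∑ i ∈ Dj, (1 : ℝ)) / n j ≤ 4 ^ j * ∑ i ∈ Dj, l i := by
            rw [div_le_iff₀ hnj]
            rw [hN] at h6
            linarith
          have h10 := mul_le_mul_of_nonneg_left h9 (by positivity : (0 : ℝ) ≤ (1 / 4) ^ j)
          have h11 : (1 / 4 : ℝ) ^ j * (4 ^ j * ∑ i ∈ Dj, l i) = ∑ i ∈ Dj, l i := by
            rw [← mul_assoc, ← mul_pow]; norm_num
          linarith
        rcases Nat.eq_zero_or_pos j with hj0 | hjpos
        · have h8 : ∑ i ∈ Dj, |f (F.t i) - f (F.s i)| * (1 / gam i) ≤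
              2 * (c j * ∑ i ∈ Dj, 1 / gam i) := by
            rw [mul_sum, mul_sum]
            apply sum_le_sum
            intro i hi
            have h9 : |f (F.t i) - f (F.s i)| ≤ 2 * c j := by
              rw [hf, hf, hj0]
              exact g_up0 c N hc0 hc8 _ _
            have h10 := mul_le_mul_of_nonneg_right h9 (inv_nonneg' hg i)
            linarith
          have h9 : (0 : ℝ) ≤ (1 / 4) ^ j := by positivity
          linarith
        · obtain ⟨k, hk⟩ : ∃ k, j = k + 1 := ⟨j - 1, by omega⟩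
          have hy1 : ∀ i ∈ Dj, N k * l i ≤ 1 := by
            intro i hi
            exact ((hτ i (hDjm i hi).1).2 k (by rw [(hDjm i hi).2]; omega)).le
          have hy0 : ∀ i ∈ Dj, 0 ≤ N k * l i := by
            intro i hi
            exact mul_nonneg (hN0 k).le (hDmem i (hDjm i hi).1).2.le
          have h8 := bath hg (n k) (hn1 k) Dj (fun i => N k * l i) hy0 hy1
          have hnk : (0 : ℝ) < n k := by linarith [hnr k]
          have h9 : c k * ∑ i ∈ Dj, N k * l i * (1 / gam i) ≤ (1 / 4) ^ k + ∑ i ∈ Dj, l i := by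
            have h10 := mul_le_mul_of_nonneg_left h8 (hc0 k).le
            have e0 : ∑ i ∈ Dj, N k * l i = (4 : ℝ) ^ k * n k * ∑ i ∈ Dj, l i := by
              rw [← mul_sum, hN]
            rw [← mul_assoc, hcG, e0] at h10
            refine h10.trans (le_of_eq ?_)
            have e1 : (4 : ℝ) ^ k * n k * (∑ i ∈ Dj, l i) / n k = 4 ^ k * ∑ i ∈ Dj, l i := by
              field_simp
            rw [e1, mul_add, mul_one, ← mul_assoc, ← mul_pow]
            norm_num
          have h10 : ∑ i ∈ Dj, |f (F.t i) - f (F.s i)| * (1 / gam i) ≤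
              2 * (c j * ∑ i ∈ Dj, 1 / gam i) + 2 * (c k * ∑ i ∈ Dj, N k * l i * (1 / gam i)) := by
            rw [mul_sum, mul_sum, mul_sum, mul_sum, ← sum_add_distrib]
            apply sum_le_sum
            intro i hi
            have h9 : |f (F.t i) - f (F.s i)| ≤ 2 * c j + 2 * c k * (N k * l i) := by
              rw [hf, hf, hk, ← huv i (hDmem i (hDjm i hi).1).1]
              exact g_up c N hc0 hN0 hc8 hcN k _ _
            have h10 := mul_le_mul_of_nonneg_right h9 (inv_nonneg' hg i)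
            linarith
          have h11 : (1 / 4 : ℝ) ^ k = 4 * (1 / 4) ^ j := by
            rw [hk, pow_succ]; ring
          linarith
      refine (sum_le_sum hclass).trans ?_
      rw [sum_add_distrib, ← mul_sum, ← mul_sum]
      have hgeo : ∑ i ∈ range T, (1 / 4 : ℝ) ^ i ≤ 2 := by
        refine le_trans (sum_le_sum fun i _ => ?_) (sum_geometric_two_le T)
        exact pow_le_pow_left₀ (by norm_num) (by norm_num) i
      linarith
    exact lt_of_le_of_lt h3 ENNReal.ofReal_lt_top
  -- f ∉ ΛBV_c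
  refine not_BVc (c := ε0 / 4) (by positivity) ?_ (hsub hfG)
  intro m
  have hctend : ∃ t, c t * H lam m ≤ ε0 / 2 := by
    obtain ⟨t, ht⟩ := exists_pow_lt_of_lt_one (show 0 < (ε0 / 2) / (c 0 * (H lam m + 1)) from by
      have := H_nonneg hl m
      have := hc0 0
      positivity) (by norm_num : (1 / 2 : ℝ) < 1)
    refine ⟨t, ?_⟩
    have h5 := c_geo c hc0 hc8 0 t
    rw [add_zero] at h5
    have h6 := H_nonneg hl m
    rw [lt_div_iff₀ (mul_pos (hc0 0) (by linarith))] at ht
    have h7 := mul_le_mul_of_nonneg_right h5 h6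
    have h8 : c 0 * (1 / 2) ^ t * H lam m ≤ (1 / 2) ^ t * (c 0 * (H lam m + 1)) := by
      have : (0 : ℝ) ≤ (1 / 2) ^ t * c 0 := mul_nonneg (by positivity) (hc0 0).le
      nlinarith
    linarith
  obtain ⟨t, ht⟩ := hctend
  have hNt := hN0 t
  have hNN : ((4 ^ t * n t : ℕ) : ℝ) = N t := by rw [hN]; push_cast; ring
  have hstep : ∀ j : ℕ, a + (b - a) * (j / N t) ≤ a + (b - a) * ((j + 1) / N t) := by
    intro j
    have : (j : ℝ) / N t ≤ (j + 1) / N t := div_le_div_of_nonneg_right (by linarith) hNt.le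
    have := mul_le_mul_of_nonneg_left this hba.le
    linarith
  refine ⟨⟨4 ^ t * n t, fun j => a + (b - a) * (j / N t), fun j => a + (b - a) * ((j + 1) / N t),
    ?_, ?_⟩, ?_⟩
  · intro j hj
    refine ⟨?_, hstep j, ?_⟩
    · have : 0 ≤ (b - a) * (j / N t) := by positivity
      linarith
    · have h5 : ((j : ℝ) + 1) / N t ≤ 1 := by
        rw [div_le_one hNt, ← hNN]
        exact_mod_cast hj
      have := mul_le_mul_of_nonneg_left h5 hba.le
      linarith
  · intro i _ j _ hij
    have key : ∀ i j : ℕ, i < j → a + (b - a) * (((i : ℝ) + 1) / N t) ≤ a + (b - a) * (j / N t) := by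
      intro i j h
      have h5 : (i : ℝ) + 1 ≤ j := by exact_mod_cast h
      have h6 : ((i : ℝ) + 1) / N t ≤ j / N t := div_le_div_of_nonneg_right h5 hNt.le
      have := mul_le_mul_of_nonneg_left h6 hba.le
      linarith
    rcases lt_or_gt_of_ne hij with h | h
    · left; exact key i j h
    · right; exact key j i h
  · unfold Fam.sum
    simp only [shift]
    have h5 : ∑ j ∈ range (4 ^ t * n t), c t / 2 * (1 / lam (m + j)) ≤
        ∑ i ∈ range (4 ^ t * n t), |f (a + (b - a) * ((↑i + 1) / N t)) -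
          f (a + (b - a) * (↑i / N t))| / lam (m + i) := by
      apply sum_le_sum
      intro i _
      have h6 := g_low c N hc0 hN0 hc8 hcN t i
      have e1 : ∀ z : ℝ, f (a + (b - a) * z) = gfun c N z := by
        intro z
        rw [hf, add_sub_cancel_left, mul_div_cancel_left₀ _ hba.ne']
      rw [e1, e1, div_eq_mul_one_div (|gfun c N ((↑i + 1) / N t) - gfun c N (↑i / N t)|)]
      exact mul_le_mul_of_nonneg_right h6 (inv_nonneg' hl _)
    refine le_trans ?_ h5
    rw [← mul_sum]
    have h6 := H_add hl m (4 ^ t * n t)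
    have h7 : H lam (4 ^ t * n t) ≤ H lam (m + 4 ^ t * n t) := H_mono hl (Nat.le_add_left _ _)
    have h8 := hn2 t
    have h9 : ε0 < c t * H lam (4 ^ t * n t) := by
      rw [hc, one_div, ← div_eq_inv_mul, lt_div_iff₀ (mul_pos (h4 t) (hGp t))]
      exact h8
    have h10 : c t * (H lam (4 ^ t * n t) - H lam m) ≤ c t * ∑ s ∈ range (4 ^ t * n t), 1 / lam (m + s) :=
      mul_le_mul_of_nonneg_left (by linarith) (hc0 t).le
    have h11 : c t / 2 * ∑ i ∈ range (4 ^ t * n t), 1 / lam (m + i) =
        (c t * ∑ s ∈ range (4 ^ t * n t), 1 / lam (m + s)) / 2 := by ring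
    rw [h11]
    linarith

theorem main {gam lam : ℕ → ℝ} (hg : IsLambda gam) (hl : IsLambda lam) {a b : ℝ} (hab : a < b) :
    BV gam a b ⊆ BVc lam a b ↔ Crit gam lam := by
  constructor
  · intro hsub
    by_contra hn
    by_cases hub : ∀ B, ∃ i, B ≤ gam i
    · exact nec_unbdd hg hl hab hn hub hsub
    · push Not at hub
      obtain ⟨B, hB⟩ := hub
      exact nec_bdd hg hl hab hn B (fun i => (hB i).le) hsub
  · intro h
    exact suff hg hl h a b

end Pool.Agent.X185.LB
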