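import Pool.Agent.X185.LB.Suff
set_option autoImplicit false
set_option linter.all false

open Finset Filter Topology

noncomputable section

namespace Pool.Agent.X185.LB

theorem bath {gam : ℕ → ℝ} (hg : IsLambda gam) (n : ℕ) (hn : 1 ≤ n) (D : Finset ℕ) (y : ℕ → ℝ)
    (hy0 : ∀ i ∈ D, 0 ≤ y i) (hy1 : ∀ i ∈ D, y i ≤ 1) :
    ∑ i ∈ D, y i * (1 / gam i) ≤ H gam n * (1 + (∑ i ∈ D, y i) / n) := by
  have hnr : (0 : ℝ) < n := by exact_mod_cast hn
  have h1 : ∀ i ∈ D, y i * (1 / gam i) ≤ (if i < n then 1 / gam i else 0) + y i * (1 / gam n) := by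
    intro i hi
    split_ifs with h
    · have h2 : y i * (1 / gam i) ≤ 1 * (1 / gam i) :=
        mul_le_mul_of_nonneg_right (hy1 i hi) (inv_nonneg' hg i)
      have h3 := mul_nonneg (hy0 i hi) (inv_nonneg' hg n)
      linarith
    · have h2 := mul_le_mul_of_nonneg_left (inv_anti hg (not_lt.mp h)) (hy0 i hi)
      linarith
  have h2 := sum_le_sum h1
  rw [sum_add_distrib, ← sum_filter, ← sum_mul] at h2
  have h3 : ∑ i ∈ D.filter (fun i => i < n), 1 / gam i ≤ H gam n := by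
    apply sum_le_sum_of_subset_of_nonneg
    · intro i hi; rw [mem_filter] at hi; exact mem_range.mpr hi.2
    · intro i _ _; exact inv_nonneg' hg i
  have h4 : (n : ℝ) * (1 / gam n) ≤ H gam n := by
    have := card_nsmul_le_sum (range n) (fun s => 1 / gam s) (1 / gam n)
      (fun s hs => inv_anti hg (mem_range.mp hs).le)
    simpa [H] using this
  have h5 : (∑ i ∈ D, y i) * (1 / gam n) ≤ H gam n * ((∑ i ∈ D, y i) / n) := by
    have h6 : 0 ≤ ∑ i ∈ D, y i := sum_nonneg hy0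
    have h7 : 1 / gam n ≤ H gam n / n := by
      rw [le_div_iff₀ hnr]; linarith
    have h8 := mul_le_mul_of_nonneg_left h7 h6
    have e : (∑ i ∈ D, y i) * (H gam n / n) = H gam n * ((∑ i ∈ D, y i) / n) := by ring
    linarith
  have e : H gam n * (1 + (∑ i ∈ D, y i) / n) = H gam n + H gam n * ((∑ i ∈ D, y i) / n) := by ring
  linarith

theorem total_length {a b : ℝ} (hab : a ≤ b) (F : Fam a b) :
    ∑ i ∈ range F.n, (F.t i - F.s i) ≤ b - a := by
  have hdisj : ((range F.n : Finset ℕ) : Set ℕ).PairwiseDisjoint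
      (fun i => Set.Ioc (F.s i) (F.t i)) := by
    intro i hi j hj hij
    rw [coe_range, Set.mem_Iio] at hi hj
    rw [Function.onFun, Set.disjoint_left]
    intro x hx hx'
    rcases F.nonov i hi j hj hij with h | h
    · linarith [hx.2, hx'.1]
    · linarith [hx.1, hx'.2]
  have h1 := MeasureTheory.measure_biUnion_finset (μ := MeasureTheory.volume) hdisj
    (fun i _ => measurableSet_Ioc)
  simp only [Real.volume_Ioc] at h1
  rw [← ENNReal.ofReal_sum_of_nonneg (fun i hi => by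
    have := (F.sub i (mem_range.mp hi)).2.1; linarith)] at h1
  have h2 : (⋃ i ∈ range F.n, Set.Ioc (F.s i) (F.t i)) ⊆ Set.Ioc a b := by
    intro x hx
    simp only [Set.mem_iUnion] at hx
    obtain ⟨i, hi, hx⟩ := hx
    obtain ⟨h3, h4, h5⟩ := F.sub i (mem_range.mp hi)
    exact ⟨lt_of_le_of_lt h3 hx.1, hx.2.trans h5⟩
  have h3 := MeasureTheory.measure_mono (μ := MeasureTheory.volume) h2
  rw [h1, Real.volume_Ioc] at h3
  exact (ENNReal.ofReal_le_ofReal_iff (by linarith)).mp h3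

theorem not_BVc {lam : ℕ → ℝ} {a b : ℝ} {f : ℝ → ℝ} {c : ℝ} (hc : 0 < c)
    (h : ∀ m, ∃ F : Fam a b, c ≤ F.sum (shift lam m) f) : f ∉ BVc lam a b := by
  rintro ⟨-, h2⟩
  have h3 : (0 : ENNReal) < ENNReal.ofReal c := ENNReal.ofReal_pos.mpr hc
  have h4 := h2.eventually_lt_const h3
  obtain ⟨m, hm⟩ := h4.exists
  obtain ⟨F, hF⟩ := h m
  have h5 := le_V (lam := shift lam m) (f := f) F
  have h6 := ENNReal.ofReal_le_ofReal hF
  exact absurd hm (not_lt.mpr (h6.trans h5))

theorem H_lin {gam : ℕ → ℝ} (hg : IsLambda gam) (i n : ℕ) :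
    H gam n ≤ H gam i + n * (1 / gam i) := by
  have h1 : H gam n ≤ H gam (i + n) := H_mono hg (Nat.le_add_left _ _)
  rw [H_add hg] at h1
  have h2 : ∑ s ∈ range n, 1 / gam (i + s) ≤ n * (1 / gam i) := by
    have := sum_le_card_nsmul (range n) (fun s => 1 / gam (i + s)) (1 / gam i)
      (fun s _ => inv_anti hg (Nat.le_add_right _ _))
    simpa using this
  linarith

theorem H_pos {gam : ℕ → ℝ} (hg : IsLambda gam) (n : ℕ) (hn : 1 ≤ n) : 0 < H gam n := by
  have h1 : H gam 1 ≤ H gam n := H_mono hg hn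
  have h2 : H gam 1 = 1 / gam 0 := by simp [H]
  have h3 := one_div_pos.mpr (hg.pos 0)
  linarith

theorem not_crit {gam lam : ℕ → ℝ} (h : ¬ Crit gam lam) : ∃ ε0 : ℝ, 0 < ε0 ∧
    ∀ K : ℕ, 1 ≤ K → ∃ᶠ n in atTop, ε0 * (K * H gam n) < H lam (K * n) := by
  unfold Crit at h
  push Not at h
  obtain ⟨ε0, h0, h1⟩ := h
  refine ⟨ε0, h0, ?_⟩
  intro K hK
  exact h1 K hK

theorem nec_bdd {gam lam : ℕ → ℝ} (hg : IsLambda gam) (hl : IsLambda lam) {a b : ℝ} (hab : a < b)
    (hn : ¬ Crit gam lam) (B : ℝ) (hB : ∀ i, gam i ≤ B) : ¬ BV gam a b ⊆ BVc lam a b := by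
  obtain ⟨ε0, h0, hfr⟩ := not_crit hn
  have hB0 : 0 < B := (hg.pos 0).trans_le (hB 0)
  have h1 : ∀ n : ℕ, n * (1 / B) ≤ H gam n := by
    intro n
    have := card_nsmul_le_sum (range n) (fun s => 1 / gam s) (1 / B)
      (fun s hs => one_div_le_one_div_of_le (hg.pos s) (hB s))
    simpa [H] using this
  have h2 : ∀ m, ε0 / B ≤ 1 / lam m := by
    intro m
    by_contra hcon
    push Not at hcon
    have h3 := hfr 1 le_rfl
    have h4 : ∀ᶠ n : ℕ in atTop, H lam m / (ε0 / B - 1 / lam m) ≤ n :=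
      tendsto_natCast_atTop_atTop.eventually_ge_atTop _
    obtain ⟨n, hn1, hn2⟩ := (h3.and_eventually h4).exists
    rw [div_le_iff₀ (by linarith)] at hn2
    have h5 := H_lin hl m n
    rw [one_mul, Nat.cast_one, one_mul] at hn1
    have h6 := mul_le_mul_of_nonneg_left (h1 n) h0.le
    have e : ε0 * (n * (1 / B)) = n * (ε0 / B) := by ring
    nlinarith
  intro hsub
  have hid : (fun x : ℝ => x) ∈ BV gam a b := by
    have h3 : V gam a b (fun x : ℝ => x) ≤ ENNReal.ofReal ((b - a) * (1 / gam 0)) := by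
      apply V_le
      intro F
      have h4 : F.sum gam (fun x : ℝ => x) ≤ ∑ i ∈ range F.n, (F.t i - F.s i) * (1 / gam 0) := by
        unfold Fam.sum
        apply sum_le_sum
        intro i hi
        have h5 := (F.sub i (mem_range.mp hi)).2.1
        rw [abs_of_nonneg (by linarith), div_eq_mul_one_div]
        exact mul_le_mul_of_nonneg_left (inv_anti hg (Nat.zero_le i)) (by linarith)
      rw [← sum_mul] at h4
      exact h4.trans (mul_le_mul_of_nonneg_right (total_length hab.le F) (inv_nonneg' hg 0))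
    exact lt_of_le_of_lt h3 ENNReal.ofReal_lt_top
  refine not_BVc (c := (b - a) * (ε0 / B)) (mul_pos (by linarith) (div_pos h0 hB0)) ?_ (hsub hid)
  intro m
  refine ⟨⟨1, fun _ => a, fun _ => b, fun i _ => ⟨le_refl _, hab.le, le_refl _⟩,
    fun i hi j hj hij => by omega⟩, ?_⟩
  simp only [Fam.sum, sum_range_one, shift]
  rw [abs_of_pos (by linarith), div_eq_mul_one_div (b - a) (lam (m + 0))]
  exact mul_le_mul_of_nonneg_left (h2 _) (by linarith)

theorem ratio {gam : ℕ → ℝ} (hg : IsLambda gam) (hub : ∀ B, ∃ i, B ≤ gam i) (C : ℝ) :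
    ∀ᶠ n : ℕ in atTop, C ≤ n / H gam n := by
  obtain ⟨C', hC'⟩ : ∃ C', C' = max C 1 := ⟨_, rfl⟩
  have hC1 : 1 ≤ C' := by rw [hC']; exact le_max_right _ _
  have hCC : C ≤ C' := by rw [hC']; exact le_max_left _ _
  obtain ⟨i, hi⟩ := hub (2 * C')
  have h4 : ∀ᶠ n : ℕ in atTop, 2 * C' * H gam i ≤ n :=
    tendsto_natCast_atTop_atTop.eventually_ge_atTop _
  filter_upwards [h4, eventually_ge_atTop 1] with n hn hn1
  refine hCC.trans ?_
  rw [le_div_iff₀ (H_pos hg n hn1)]
  have h5 := H_lin hg i n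
  have h6 : 1 / gam i ≤ 1 / (2 * C') := one_div_le_one_div_of_le (by linarith) hi
  have h7 : (n : ℝ) * (1 / gam i) ≤ n * (1 / (2 * C')) :=
    mul_le_mul_of_nonneg_left h6 (Nat.cast_nonneg _)
  have h8 : C' * (n * (1 / (2 * C'))) = n / 2 := by
    have : C' ≠ 0 := by linarith
    field_simp
  have h9 : C' * H gam n ≤ C' * (H gam i + n * (1 / (2 * C'))) :=
    mul_le_mul_of_nonneg_left (by linarith) (by linarith)
  nlinarith

theorem seqs {gam lam : ℕ → ℝ} (hg : IsLambda gam) (hl : IsLambda lam) (hn : ¬ Crit gam lam)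
    (hub : ∀ B, ∃ i, B ≤ gam i) : ∃ ε0 : ℝ, 0 < ε0 ∧ ∃ n : ℕ → ℕ, (∀ t, 1 ≤ n t) ∧
      (∀ t, ε0 * (4 ^ t * H gam (n t)) < H lam (4 ^ t * n t)) ∧
      (∀ t, 2 * H gam (n t) ≤ H gam (n (t + 1))) ∧
      (∀ t, 8 * (n t / H gam (n t)) ≤ n (t + 1) / H gam (n (t + 1))) := by
  obtain ⟨ε0, h0, hfr⟩ := not_crit hn
  refine ⟨ε0, h0, ?_⟩
  have step : ∀ t m : ℕ, ∃ n : ℕ, 1 ≤ n ∧ ε0 * (4 ^ t * H gam n) < H lam (4 ^ t * n) ∧
      2 * H gam m ≤ H gam n ∧ 8 * (m / H gam m) ≤ n / H gam n := by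
    intro t m
    have h1 := hfr (4 ^ t) (Nat.one_le_pow _ _ (by norm_num))
    obtain ⟨n, h2, h3, h4, h5⟩ := (h1.and_eventually ((eventually_ge_atTop 1).and
      (((H_tendsto hg).eventually_ge_atTop (2 * H gam m)).and
        (ratio hg hub (8 * (m / H gam m)))))).exists
    refine ⟨n, h3, ?_, h4, h5⟩
    push_cast at h2
    exact h2
  choose g hg1 hg2 hg3 hg4 using step
  obtain ⟨n, hn0, hns⟩ : ∃ n : ℕ → ℕ, n 0 = g 0 0 ∧ ∀ t, n (t + 1) = g (t + 1) (n t) :=
    ⟨fun t => Nat.rec (g 0 0) (fun t p => g (t + 1) p) t, rfl, fun t => rfl⟩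
  refine ⟨n, ?_, ?_, ?_, ?_⟩
  · intro t
    cases t with
    | zero => rw [hn0]; exact hg1 _ _
    | succ t => rw [hns]; exact hg1 _ _
  · intro t
    cases t with
    | zero => rw [hn0]; exact hg2 _ _
    | succ t => rw [hns]; exact hg2 _ _
  · intro t; rw [hns]; exact hg3 _ _
  · intro t; rw [hns]; exact hg4 _ _

/-- the triangle wave -/
def psi (x : ℝ) : ℝ := 2 * |x / 2 - round (x / 2)|

theorem psi_nonneg (x : ℝ) : 0 ≤ psi x := by unfold psi; positivity

theorem psi_le_one (x : ℝ) : psi x ≤ 1 := by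
  unfold psi
  have := abs_sub_round (x / 2)
  linarith

theorem psi_lip (x y : ℝ) : |psi x - psi y| ≤ |x - y| := by
  have key : ∀ x y : ℝ, psi x ≤ psi y + |x - y| := by
    intro x y
    unfold psi
    have h1 := round_le (x / 2) (round (y / 2))
    have h2 : |x / 2 - (round (y / 2) : ℤ)| ≤ |x / 2 - y / 2| + |y / 2 - round (y / 2)| := by
      have := abs_sub_le (x / 2) (y / 2) (round (y / 2))
      exact this
    have h3 : |x / 2 - y / 2| = |x - y| / 2 := by
      rw [← sub_div, abs_div, abs_two]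
    linarith
  rw [abs_le]
  have h1 := key x y
  have h2 := key y x
  rw [abs_sub_comm] at h2
  constructor <;> linarith

theorem psi_even (k : ℕ) : psi (2 * k) = 0 := by
  unfold psi
  have : (2 * (k : ℝ)) / 2 = k := by ring
  rw [this, round_natCast]
  simp

theorem psi_odd (k : ℕ) : psi (2 * k + 1) = 1 := by
  apply le_antisymm (psi_le_one _)
  unfold psi
  have e : (2 * (k : ℝ) + 1) / 2 = k + 1 / 2 := by ring
  rw [e]
  generalize round ((k : ℝ) + 1 / 2) = z
  have h1 : (z : ℝ) ≤ k ∨ (k : ℝ) + 1 ≤ z := by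
    rcases le_or_gt z (k : ℤ) with h | h
    · left; exact_mod_cast h
    · right; exact_mod_cast Int.add_one_le_of_lt h
  rcases h1 with h | h
  · rw [abs_of_nonneg (by linarith)]; linarith
  · rw [abs_of_nonpos (by linarith)]; linarith

theorem psi_step (j : ℕ) : |psi (j + 1) - psi j| = 1 := by
  rcases Nat.even_or_odd' j with ⟨k, rfl | rfl⟩
  · push_cast
    rw [psi_even, psi_odd]; norm_num
  · have e : (((2 * k + 1 : ℕ) : ℝ) + 1) = 2 * ((k + 1 : ℕ) : ℝ) := by push_cast; ring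
    rw [e, psi_even]
    push_cast
    rw [psi_odd]; norm_num

section
variable (c N : ℕ → ℝ) (hc0 : ∀ t, 0 < c t) (hN0 : ∀ t, 0 < N t)
    (hc : ∀ t, 8 * c (t + 1) ≤ c t) (hcN : ∀ t, 8 * (c t * N t) ≤ c (t + 1) * N (t + 1))

/-- the lacunary function -/
def gfun (c N : ℕ → ℝ) (u : ℝ) : ℝ := ∑' t, c t * psi (N t * u)

include hc0 hc in
theorem c_geo (τ t : ℕ) : c (t + τ) ≤ c τ * (1 / 2) ^ t := by
  induction t with
  | zero => simp
  | succ t ih =>
    have h1 := hc (t + τ)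
    have e : t + 1 + τ = t + τ + 1 := by ring
    rw [e, pow_succ]
    have h2 := hc0 (t + τ)
    linarith

include hc0 hc in
theorem g_summable (u : ℝ) : Summable fun t => c t * psi (N t * u) := by
  have h1 : Summable fun t : ℕ => c 0 * (1 / 2 : ℝ) ^ t := summable_geometric_two.mul_left _
  apply Summable.of_nonneg_of_le _ _ h1
  · intro t; exact mul_nonneg (hc0 t).le (psi_nonneg _)
  · intro t
    have h2 := c_geo c hc0 hc 0 t
    rw [add_zero] at h2
    exact (mul_le_of_le_one_right (hc0 t).le (psi_le_one _)).trans h2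

include hc0 hc in
theorem g_tail (τ : ℕ) (u v : ℝ) :
    |gfun c N u - gfun c N v - ∑ t ∈ range τ, c t * (psi (N t * u) - psi (N t * v))| ≤
      2 * c τ := by
  unfold gfun
  rw [← (g_summable c N hc0 hc u).tsum_sub (g_summable c N hc0 hc v)]
  have hs : Summable fun t => c t * psi (N t * u) - c t * psi (N t * v) :=
    (g_summable c N hc0 hc u).sub (g_summable c N hc0 hc v)
  rw [← hs.sum_add_tsum_nat_add τ]
  have e : ∑ t ∈ range τ, (c t * psi (N t * u) - c t * psi (N t * v)) =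
      ∑ t ∈ range τ, c t * (psi (N t * u) - psi (N t * v)) :=
    sum_congr rfl fun t _ => by ring
  rw [e, add_sub_cancel_left]
  have h1 : HasSum (fun t : ℕ => c τ * (1 / 2 : ℝ) ^ t) (c τ * 2) := hasSum_geometric_two.mul_left _
  have h2 := tsum_of_norm_bounded (f := fun t => c (t + τ) * psi (N (t + τ) * u) -
    c (t + τ) * psi (N (t + τ) * v)) h1 (by
      intro t
      rw [← mul_sub, Real.norm_eq_abs, abs_mul, abs_of_pos (hc0 _)]
      refine le_trans ?_ (c_geo c hc0 hc τ t)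
      apply mul_le_of_le_one_right (hc0 _).le
      rw [abs_le]
      have a1 := psi_nonneg (N (t + τ) * u)
      have a2 := psi_le_one (N (t + τ) * u)
      have a3 := psi_nonneg (N (t + τ) * v)
      have a4 := psi_le_one (N (t + τ) * v)
      constructor <;> linarith)
  rw [Real.norm_eq_abs] at h2
  linarith

include hc0 hN0 hcN in
theorem S_le (τ : ℕ) : ∑ t ∈ range τ, c t * N t ≤ c τ * N τ / 4 := by
  induction τ with
  | zero =>
    simp only [range_zero, sum_empty]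
    have := mul_pos (hc0 0) (hN0 0)
    linarith
  | succ τ ih =>
    rw [sum_range_succ]
    have h1 := hcN τ
    have h2 := mul_pos (hc0 τ) (hN0 τ)
    linarith

include hc0 hN0 in
theorem head_le (τ : ℕ) (u v : ℝ) :
    |∑ t ∈ range τ, c t * (psi (N t * u) - psi (N t * v))| ≤
      (∑ t ∈ range τ, c t * N t) * |u - v| := by
  refine (abs_sum_le_sum_abs _ _).trans ?_
  rw [sum_mul]
  apply sum_le_sum
  intro t _
  rw [abs_mul, abs_of_pos (hc0 t), mul_assoc]
  apply mul_le_mul_of_nonneg_left _ (hc0 t).le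
  refine (psi_lip _ _).trans (le_of_eq ?_)
  rw [← mul_sub, abs_mul, abs_of_pos (hN0 t)]

include hc0 hc in
theorem g_up0 (u v : ℝ) : |gfun c N u - gfun c N v| ≤ 2 * c 0 := by
  have := g_tail c N hc0 hc 0 u v
  simpa using this

include hc0 hN0 hc hcN in
theorem g_up (τ : ℕ) (u v : ℝ) :
    |gfun c N u - gfun c N v| ≤ 2 * c (τ + 1) + 2 * c τ * (N τ * |u - v|) := by
  have h1 := g_tail c N hc0 hc (τ + 1) u v
  have h2 := head_le c N hc0 hN0 (τ + 1) u v
  have h3 := S_le c N hc0 hN0 hcN τ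
  have h4 := mul_pos (hc0 τ) (hN0 τ)
  have h5 : (∑ t ∈ range (τ + 1), c t * N t) * |u - v| ≤ 2 * c τ * (N τ * |u - v|) := by
    have h6 : ∑ t ∈ range (τ + 1), c t * N t ≤ 2 * (c τ * N τ) := by
      rw [sum_range_succ]; linarith
    have h7 := mul_le_mul_of_nonneg_right h6 (abs_nonneg (u - v))
    linarith
  rw [abs_le] at h1 h2 ⊢
  constructor <;> linarith [h1.1, h1.2, h2.1, h2.2]

include hc0 hN0 hc hcN in
theorem g_low (τ : ℕ) (j : ℕ) :
    c τ / 2 ≤ |gfun c N ((j + 1) / N τ) - gfun c N (j / N τ)| := by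
  have h1 := g_tail c N hc0 hc (τ + 1) ((j + 1) / N τ) (j / N τ)
  rw [sum_range_succ] at h1
  have h2 := head_le c N hc0 hN0 τ ((j + 1) / N τ) (j / N τ)
  have h3 := S_le c N hc0 hN0 hcN τ
  have hNτ := hN0 τ
  have h4 : |(j + 1) / N τ - j / N τ| = 1 / N τ := by
    rw [← sub_div, add_sub_cancel_left, abs_of_pos (by positivity)]
  rw [h4] at h2
  have h5 : (∑ t ∈ range τ, c t * N t) * (1 / N τ) ≤ c τ / 4 := by
    rw [mul_one_div, div_le_iff₀ hNτ]; linarith
  have h6 : N τ * ((j + 1) / N τ) = j + 1 := by field_simp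
  have h7 : N τ * (j / N τ) = j := by field_simp
  rw [h6, h7] at h1
  have h8 := hc τ
  have h9 := psi_step j
  generalize (gfun c N ((↑j + 1) / N τ) - gfun c N (↑j / N τ)) = G at *
  generalize (∑ t ∈ range τ, c t * (psi (N t * ((↑j + 1) / N τ)) - psi (N t * (↑j / N τ)))) = S at *
  generalize (psi (↑j + 1) - psi ↑j) = D at *
  have h10 : |c τ * D| = c τ := by rw [abs_mul, h9, mul_one, abs_of_pos (hc0 τ)]
  have h11 : c τ * D = G - S - (G - (S + c τ * D)) := by ring
  have h12 : |c τ * D| ≤ |G| + |S| + |G - (S + c τ * D)| := by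
    calc |c τ * D| = |G - S - (G - (S + c τ * D))| := by rw [← h11]
      _ ≤ |G - S| + |G - (S + c τ * D)| := abs_sub _ _
      _ ≤ |G| + |S| + |G - (S + c τ * D)| := by linarith [abs_sub G S]
  linarith

end

end Pool.Agent.X185.LB
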