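import Pool.Agent.X185.LB.Sel
set_option autoImplicit false
set_option linter.all false

open Finset Filter Topology

noncomputable section

namespace Pool.Agent.X185.LB

theorem sort_idx (n : ℕ) (x : ℕ → ℝ) : ∃ σ : ℕ → ℕ, (∀ i < n, σ i < n) ∧
    (∀ i < n, ∀ j < n, σ i = σ j → i = j) ∧
    (∀ i j, i ≤ j → j < n → x (σ j) ≤ x (σ i)) ∧
    ∀ w : ℕ → ℝ, Antitone w → ∑ i ∈ range n, x i * w i ≤ ∑ i ∈ range n, x (σ i) * w i := by
  classical
  obtain ⟨τ, hτ⟩ : ∃ τ : Equiv.Perm (Fin n), τ = Tuple.sort (fun i : Fin n => -(x i)) := ⟨_, rfl⟩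
  have hmono : Monotone ((fun i : Fin n => -(x i)) ∘ τ) := by
    rw [hτ]; exact Tuple.monotone_sort _
  obtain ⟨σ, hσ⟩ : ∃ σ : ℕ → ℕ, σ = fun k => if h : k < n then (τ ⟨k, h⟩ : ℕ) else 0 := ⟨_, rfl⟩
  have hσk : ∀ k (h : k < n), σ k = τ ⟨k, h⟩ := by
    intro k h; rw [hσ]; simp [h]
  refine ⟨σ, ?_, ?_, ?_, ?_⟩
  · intro i hi; rw [hσk i hi]; exact (τ ⟨i, hi⟩).2
  · intro i hi j hj h
    rw [hσk i hi, hσk j hj] at h
    have := τ.injective (Fin.ext h)
    exact Fin.mk.inj_iff.mp this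
  · intro i j hij hj
    rw [hσk i (lt_of_le_of_lt hij hj), hσk j hj]
    have := hmono (show (⟨i, lt_of_le_of_lt hij hj⟩ : Fin n) ≤ ⟨j, hj⟩ from hij)
    simp only [Function.comp_apply] at this
    linarith
  · intro w hw
    have h1 : ∑ i ∈ range n, x i * w i = ∑ i : Fin n, x (τ i) * w (τ i) := by
      rw [← Fin.sum_univ_eq_sum_range (fun i => x i * w i) n]
      exact (Equiv.sum_comp τ (fun i : Fin n => x i * w i)).symm
    have h2 : ∑ i ∈ range n, x (σ i) * w i = ∑ i : Fin n, x (τ i) * w i := by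
      rw [← Fin.sum_univ_eq_sum_range (fun i => x (σ i) * w i) n]
      apply sum_congr rfl
      intro i _
      rw [hσk i i.2]
    rw [h1, h2]
    have hanti1 : Antitone (fun i : Fin n => x (τ i)) := by
      intro i j hij
      have := hmono hij
      simp only [Function.comp_apply] at this
      linarith
    have hanti2 : Antitone (fun i : Fin n => w i) := by
      intro i j hij
      exact hw hij
    exact (hanti1.monovary hanti2).sum_mul_comp_perm_le_sum_mul

theorem one_le_V0 {gam : ℕ → ℝ} (hg : IsLambda gam) {a b : ℝ} {f : ℝ → ℝ} (V0 : ℝ)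
    (hV : ∀ F : Fam a b, F.sum gam f ≤ V0) (u v : ℝ) (hu : a ≤ u) (huv : u ≤ v) (hv : v ≤ b) :
    |f v - f u| ≤ V0 * gam 0 := by
  have := hV ⟨1, fun _ => u, fun _ => v, fun i _ => ⟨hu, huv, hv⟩, fun i hi j hj hij => by omega⟩
  simp only [Fam.sum, sum_range_one] at this
  rwa [div_le_iff₀ (hg.pos 0)] at this

theorem pick {gam lam : ℕ → ℝ} (hg : IsLambda gam) (hl : IsLambda lam)
    (hinf : Tendsto lam atTop atTop) {a b : ℝ} {f : ℝ → ℝ} (V0 : ℝ)
    (hV : ∀ F : Fam a b, F.sum gam f ≤ V0) (η : ℝ) (hη : 0 < η)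
    (hfail : ∀ m, ∃ F : Fam a b, 3 * η < F.sum (shift lam m) f) (ε : ℝ) (hε : 0 < ε)
    (E : Finset ℝ) :
    ∃ F : Fam a b, (∀ i < F.n, F.s i < F.t i) ∧
      (∀ i < F.n, |f (F.t i) - f (F.s i)| ≤ ε) ∧
      (∀ i < F.n, ∀ p ∈ E, p ≤ F.s i ∨ F.t i ≤ p) ∧
      (∀ i j, i ≤ j → j < F.n → |f (F.t j) - f (F.s j)| ≤ |f (F.t i) - f (F.s i)|) ∧
      2 * η ≤ ∑ i ∈ range F.n, |f (F.t i) - f (F.s i)| * (1 / lam i) := by
  classical
  have hV0 : 0 ≤ V0 := by
    have := hV ⟨0, fun _ => 0, fun _ => 0, by simp, by simp⟩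
    simpa [Fam.sum] using this
  obtain ⟨N, hN⟩ : ∃ N, V0 / ε < H gam N :=
    ((H_tendsto hg).eventually_gt_atTop (V0 / ε)).exists
  obtain ⟨X, hX⟩ : ∃ X, X = V0 * gam 0 := ⟨_, rfl⟩
  have hX0 : 0 ≤ X := by rw [hX]; exact mul_nonneg hV0 (hg.pos 0).le
  obtain ⟨m, hm⟩ : ∃ m, ((N : ℝ) + E.card) * X / η < lam m :=
    (hinf.eventually_gt_atTop _).exists
  obtain ⟨F, hF⟩ := hfail m
  obtain ⟨x, hx⟩ : ∃ x : ℕ → ℝ, x = fun i => |f (F.t i) - f (F.s i)| := ⟨_, rfl⟩
  have hx0 : ∀ i, 0 ≤ x i := fun i => by rw [hx]; exact abs_nonneg _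
  have hxX : ∀ i < F.n, x i ≤ X := by
    intro i hi
    obtain ⟨h1, h2, h3⟩ := F.sub i hi
    rw [hx, hX]
    exact one_le_V0 hg V0 hV _ _ h1 h2 h3
  obtain ⟨w, hw⟩ : ∃ w : ℕ → ℝ, w = fun i => 1 / lam (m + i) := ⟨_, rfl⟩
  have hw0 : ∀ i, 0 ≤ w i := fun i => by rw [hw]; exact inv_nonneg' hl _
  have hwa : Antitone w := by
    intro i j hij
    rw [hw]; exact inv_anti hl (Nat.add_le_add_left hij m)
  have hwm : ∀ i, w i ≤ 1 / lam m := fun i => by rw [hw]; exact inv_anti hl (Nat.le_add_right _ _)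
  have hFs : 3 * η < ∑ i ∈ range F.n, x i * w i := by
    refine hF.trans_le (le_of_eq ?_)
    unfold Fam.sum
    apply sum_congr rfl
    intro i _
    rw [hx, hw]; simp only [shift]; ring
  -- big pieces
  obtain ⟨D, hD⟩ : ∃ D, D = (range F.n).filter (fun i => ε < x i) := ⟨_, rfl⟩
  have hDN : D.card ≤ N := by
    by_contra hcon
    push Not at hcon
    obtain ⟨e, he1, he2, he3, he4⟩ := enum D
    have hmem : ∀ k < D.card, e k < F.n ∧ ε < x (e k) := by
      intro k hk
      have := he1 k hk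
      rw [hD, mem_filter, mem_range] at this
      exact this
    have hinj : ∀ k < D.card, ∀ l < D.card, k ≠ l → e k ≠ e l := by
      intro k hk l hl hkl
      rcases lt_or_gt_of_ne hkl with h | h
      · exact (he2 k l h hl).ne
      · exact (he2 l k h hk).ne'
    have h1 := hV ⟨D.card, fun k => F.s (e k), fun k => F.t (e k),
      fun k hk => F.sub _ (hmem k hk).1, fun k hk l hl hkl =>
        F.nonov _ (hmem k hk).1 _ (hmem l hl).1 (hinj k hk l hl hkl)⟩
    simp only [Fam.sum] at h1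
    have h2 : ε * H gam D.card ≤ ∑ k ∈ range D.card, |f (F.t (e k)) - f (F.s (e k))| / gam k := by
      unfold H
      rw [mul_sum]
      apply sum_le_sum
      intro k hk
      have h3 := (hmem k (mem_range.mp hk)).2
      rw [hx] at h3
      rw [div_eq_mul_one_div (|f (F.t (e k)) - f (F.s (e k))|) (gam k)]
      exact mul_le_mul_of_nonneg_right h3.le (inv_nonneg' hg k)
    have h3 := H_mono hg hcon.le
    have h4 : V0 < ε * H gam N := by
      rw [div_lt_iff₀ hε] at hN; linarith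
    nlinarith
  -- crossing pieces
  obtain ⟨C, hC⟩ : ∃ C, C = (range F.n).filter (fun i => ∃ p ∈ E, F.s i < p ∧ p < F.t i) := ⟨_, rfl⟩
  have hCE : C.card ≤ E.card := by
    have h1 : ∀ i ∈ C, ∃ p ∈ E, F.s i < p ∧ p < F.t i := by
      intro i hi; rw [hC, mem_filter] at hi; exact hi.2
    have h1' : ∀ i ∈ C, i < F.n := by
      intro i hi; rw [hC, mem_filter, mem_range] at hi; exact hi.1
    obtain ⟨p, hp⟩ : ∃ p : ℕ → ℝ, ∀ i ∈ C, p i ∈ E ∧ F.s i < p i ∧ p i < F.t i := by
      refine ⟨fun i => if h : ∃ p ∈ E, F.s i < p ∧ p < F.t i then h.choose else 0, ?_⟩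
      intro i hi
      have h := h1 i hi
      simp only [dif_pos h]
      exact h.choose_spec
    apply card_le_card_of_injOn p
    · intro i hi; exact (hp i hi).1
    · intro i hi j hj hij
      by_contra hne
      obtain ⟨-, a1, a2⟩ := hp i hi
      obtain ⟨-, a3, a4⟩ := hp j hj
      rw [hij] at a1 a2
      rcases F.nonov i (h1' i hi) j (h1' j hj) hne with h | h <;> linarith
  obtain ⟨B, hB⟩ : ∃ B, B = (range F.n).filter (fun i => 0 < x i ∧ i ∉ D ∧ i ∉ C) := ⟨_, rfl⟩
  have hBmem : ∀ i ∈ B, i < F.n ∧ 0 < x i ∧ x i ≤ ε ∧ ∀ p ∈ E, p ≤ F.s i ∨ F.t i ≤ p := by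
    intro i hi
    rw [hB, mem_filter, mem_range, hD, hC] at hi
    obtain ⟨h1, h2, h3, h4⟩ := hi
    refine ⟨h1, h2, ?_, ?_⟩
    · by_contra h
      exact h3 (mem_filter.mpr ⟨mem_range.mpr h1, not_le.mp h⟩)
    · intro p hp
      by_contra h
      push Not at h
      exact h4 (mem_filter.mpr ⟨mem_range.mpr h1, p, hp, h.1, h.2⟩)
  have hBsum : 2 * η ≤ ∑ i ∈ B, x i * w i := by
    have h1 : ∑ i ∈ range F.n, x i * w i ≤ ∑ i ∈ B, x i * w i + ∑ i ∈ D ∪ C, x i * w i := by
      have h2 : ∀ i ∈ range F.n, x i * w i ≤ (if i ∈ B then x i * w i else 0) +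
          (if i ∈ D ∪ C then x i * w i else 0) := by
        intro i hi
        have h0 := mul_nonneg (hx0 i) (hw0 i)
        by_cases hDC : i ∈ D ∪ C
        · rw [if_pos hDC]; split_ifs <;> linarith
        · rw [if_neg hDC]
          rcases (hx0 i).eq_or_lt with h3 | h3
          · rw [← h3]; simp
          · have : i ∈ B := by
              rw [hB, mem_filter]
              rw [mem_union, not_or] at hDC
              exact ⟨hi, h3, hDC.1, hDC.2⟩
            rw [if_pos this]; linarith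
      have h3 := sum_le_sum h2
      rw [sum_add_distrib, ← sum_filter, ← sum_filter] at h3
      have e1 : (range F.n).filter (fun i => i ∈ B) = B := by
        ext i; rw [mem_filter]; constructor
        · exact fun h => h.2
        · intro h; exact ⟨by rw [hB] at h; exact (mem_filter.mp h).1, h⟩
      have e2 : (range F.n).filter (fun i => i ∈ D ∪ C) = D ∪ C := by
        ext i; rw [mem_filter]; constructor
        · exact fun h => h.2
        · intro h; refine ⟨?_, h⟩
          rcases mem_union.mp h with h' | h'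
          · rw [hD] at h'; exact (mem_filter.mp h').1
          · rw [hC] at h'; exact (mem_filter.mp h').1
      rw [e1, e2] at h3
      exact h3
    have h2 : ∑ i ∈ D ∪ C, x i * w i ≤ ((N : ℝ) + E.card) * (X * (1 / lam m)) := by
      have h3 : ∑ i ∈ D ∪ C, x i * w i ≤ (D ∪ C).card • (X * (1 / lam m)) := by
        apply sum_le_card_nsmul
        intro i hi
        have hiF : i < F.n := by
          rcases mem_union.mp hi with h' | h'
          · rw [hD, mem_filter, mem_range] at h'; exact h'.1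
          · rw [hC, mem_filter, mem_range] at h'; exact h'.1
        exact mul_le_mul (hxX i hiF) (hwm i) (hw0 i) hX0
      rw [nsmul_eq_mul] at h3
      refine h3.trans (mul_le_mul_of_nonneg_right ?_ (mul_nonneg hX0 (inv_nonneg' hl m)))
      have h4 := card_union_le D C
      have h5 : (D ∪ C).card ≤ N + E.card := by omega
      exact_mod_cast h5
    have h3 : ((N : ℝ) + E.card) * (X * (1 / lam m)) ≤ η := by
      have e : ((N : ℝ) + E.card) * (X * (1 / lam m)) = ((N : ℝ) + E.card) * X / lam m := by ring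
      rw [e, div_le_iff₀ (hl.pos m)]
      rw [div_lt_iff₀ hη] at hm
      linarith
    linarith
  obtain ⟨e, he1, he2, he3, he4⟩ := enum B
  obtain ⟨σ, hσ1, hσ2, hσ3, hσ4⟩ := sort_idx B.card (fun k => x (e k))
  have hmem : ∀ k < B.card, e (σ k) ∈ B := fun k hk => he1 _ (hσ1 k hk)
  have hinj : ∀ k < B.card, ∀ l < B.card, k ≠ l → e (σ k) ≠ e (σ l) := by
    intro k hk l hl hkl h
    have h2 : σ k = σ l := by
      rcases lt_trichotomy (σ k) (σ l) with h1 | h1 | h1
      · exact absurd h (he2 _ _ h1 (hσ1 l hl)).ne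
      · exact h1
      · exact absurd h (he2 _ _ h1 (hσ1 k hk)).ne'
    exact hkl (hσ2 k hk l hl h2)
  refine ⟨⟨B.card, fun k => F.s (e (σ k)), fun k => F.t (e (σ k)),
      fun k hk => F.sub _ (hBmem _ (hmem k hk)).1, fun k hk l hl hkl =>
        F.nonov _ (hBmem _ (hmem k hk)).1 _ (hBmem _ (hmem l hl)).1 (hinj k hk l hl hkl)⟩,
      ?_, ?_, ?_, ?_, ?_⟩
  · intro k hk
    simp only
    have h1 := hBmem _ (hmem k hk)
    have h2 := (F.sub _ h1.1).2.1
    rcases h2.eq_or_lt with h3 | h3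
    · exfalso
      have h4 := h1.2.1
      rw [hx] at h4
      simp only [h3, sub_self, abs_zero, lt_self_iff_false] at h4
    · exact h3
  · intro k hk
    have h1 := (hBmem _ (hmem k hk)).2.2.1
    rw [hx] at h1
    exact h1
  · intro k hk p hp
    exact (hBmem _ (hmem k hk)).2.2.2 p hp
  · intro i j hij hj
    have := hσ3 i j hij hj
    rw [hx] at this
    exact this
  · simp only
    have h1 : ∑ i ∈ B, x i * w i ≤ ∑ k ∈ range B.card, x (e (σ k)) * (1 / lam k) := by
      rw [he4]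
      have h2 : ∑ k ∈ range B.card, x (e k) * w (e k) ≤ ∑ k ∈ range B.card, x (e k) * w k := by
        apply sum_le_sum
        intro k hk
        exact mul_le_mul_of_nonneg_left (hwa (he3 k (mem_range.mp hk))) (hx0 _)
      refine h2.trans ((hσ4 w hwa).trans ?_)
      apply sum_le_sum
      intro k hk
      apply mul_le_mul_of_nonneg_left _ (hx0 _)
      rw [hw]
      exact inv_anti hl (Nat.le_add_left _ _)
    refine (hBsum.trans h1).trans (le_of_eq ?_)
    rw [hx]

end Pool.Agent.X185.LB
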