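import Pool.Agent.X185.LB.Basic
set_option autoImplicit false
set_option linter.all false

open Finset Filter Topology

noncomputable section

namespace Pool.Agent.X185.LB

/-- increasing enumeration of a finite set of naturals -/
theorem enum (D : Finset ℕ) : ∃ e : ℕ → ℕ, (∀ k < D.card, e k ∈ D) ∧
    (∀ k l, k < l → l < D.card → e k < e l) ∧ (∀ k < D.card, k ≤ e k) ∧
    ∀ g : ℕ → ℝ, ∑ i ∈ D, g i = ∑ k ∈ range D.card, g (e k) := by
  classical
  obtain ⟨e, he⟩ : ∃ e : ℕ → ℕ, e = fun k => if h : k < D.card then D.orderEmbOfFin rfl ⟨k, h⟩ else 0 :=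
    ⟨_, rfl⟩
  have hek : ∀ k (h : k < D.card), e k = D.orderEmbOfFin rfl ⟨k, h⟩ := by
    intro k h; rw [he]; simp [h]
  have hmono : ∀ k l, k < l → l < D.card → e k < e l := by
    intro k l hkl hl
    rw [hek k (hkl.trans hl), hek l hl]
    exact (D.orderEmbOfFin rfl).strictMono hkl
  have hmem : ∀ k < D.card, e k ∈ D := by
    intro k h; rw [hek k h]; exact Finset.orderEmbOfFin_mem _ _ _
  refine ⟨e, hmem, hmono, ?_, ?_⟩
  · intro k
    induction k with
    | zero => intro _; exact Nat.zero_le _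
    | succ k ih =>
      intro h
      have h1 := ih (by omega)
      have h2 := hmono k (k + 1) (by omega) h
      omega
  · intro g
    symm
    apply Finset.sum_nbij e
    · intro k hk; exact hmem k (mem_range.mp hk)
    · intro k hk l hl hkl
      simp only [coe_range, Set.mem_Iio] at hk hl
      rcases lt_trichotomy k l with h | h | h
      · exact absurd hkl (hmono k l h hl).ne
      · exact h
      · exact absurd hkl (hmono l k h hk).ne'
    · intro i hi
      have h1 : i ∈ Set.range (D.orderEmbOfFin rfl) := by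
        rw [Finset.range_orderEmbOfFin]; exact hi
      obtain ⟨⟨k, hk⟩, hki⟩ := h1
      exact ⟨k, by simpa using hk, by rw [hek k hk]; exact hki⟩
    · intro k _; rfl

theorem inj_bound {gam : ℕ → ℝ} (hg : IsLambda gam) {a b : ℝ} {f : ℝ → ℝ} (V0 : ℝ)
    (hV : ∀ F : Fam a b, F.sum gam f ≤ V0) {ι : Type} (P : Finset ι) (s t : ι → ℝ)
    (ρ : ι → ℕ) (hsub : ∀ p ∈ P, a ≤ s p ∧ s p ≤ t p ∧ t p ≤ b)
    (hno : ∀ p ∈ P, ∀ q ∈ P, p ≠ q → t p ≤ s q ∨ t q ≤ s p) (hρ : Set.InjOn ρ P) :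
    ∑ p ∈ P, |f (t p) - f (s p)| * (1 / gam (ρ p)) ≤ V0 := by
  classical
  rcases P.eq_empty_or_nonempty with rfl | ⟨p0, hp0⟩
  · have := hV ⟨0, fun _ => 0, fun _ => 0, by simp, by simp⟩
    simpa [Fam.sum] using this
  haveI : Nonempty ι := ⟨p0⟩
  obtain ⟨inv, hinv⟩ : ∃ inv : ℕ → ι, ∀ p ∈ P, inv (ρ p) = p :=
    ⟨Function.invFunOn ρ P, fun p hp => hρ.leftInvOn_invFunOn hp⟩
  obtain ⟨e, he1, he2, he3, he4⟩ := enum (P.image ρ)
  have hinvmem : ∀ k < (P.image ρ).card, inv (e k) ∈ P ∧ ρ (inv (e k)) = e k := by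
    intro k hk
    obtain ⟨p, hp, hpe⟩ := mem_image.mp (he1 k hk)
    rw [← hpe, hinv p hp]
    exact ⟨hp, rfl⟩
  have h1 : ∑ p ∈ P, |f (t p) - f (s p)| * (1 / gam (ρ p)) =
      ∑ i ∈ P.image ρ, |f (t (inv i)) - f (s (inv i))| * (1 / gam i) := by
    rw [sum_image (fun p hp q hq h => hρ hp hq h)]
    apply sum_congr rfl
    intro p hp
    rw [hinv p hp]
  rw [h1, he4]
  have hF := hV ⟨(P.image ρ).card, fun k => s (inv (e k)), fun k => t (inv (e k)),
    fun k hk => hsub _ (hinvmem k hk).1, fun k hk l hl hkl => by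
      apply hno _ (hinvmem k hk).1 _ (hinvmem l hl).1
      intro h
      have h2 : e k = e l := by
        rw [← (hinvmem k hk).2, ← (hinvmem l hl).2, h]
      rcases lt_or_gt_of_ne hkl with h3 | h3
      · exact absurd h2 (he2 k l h3 hl).ne
      · exact absurd h2 (he2 l k h3 hk).ne'⟩
  refine le_trans ?_ hF
  unfold Fam.sum
  apply sum_le_sum
  intro k hk
  rw [mem_range] at hk
  have h2 : |f (t (inv (e k))) - f (s (inv (e k)))| / gam k =
      |f (t (inv (e k))) - f (s (inv (e k)))| * (1 / gam k) := by ring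
  simp only
  rw [h2]
  exact mul_le_mul_of_nonneg_left (inv_anti hg (he3 k hk)) (abs_nonneg _)

section
variable {gam lam : ℕ → ℝ} (hg : IsLambda gam) (hl : IsLambda lam) (K : ℕ) (hK : 1 ≤ K)
    (ε A : ℝ) (hε : 0 < ε) (hA : 0 ≤ A)
    (hcond : ∀ n, H lam (K * n) ≤ ε * (K * H gam n) + A)
    (n : ℕ → ℕ) (s t x : ℕ → ℕ → ℝ) (M : ℕ → ℕ) (δ : ℕ → ℝ)
    (hM : ∀ u, M (u + 1) = M u + n u)
    (hx0 : ∀ u i, 0 ≤ x u i)
    (hxa : ∀ u i j, i ≤ j → j < n u → x u j ≤ x u i)
    (hxδ : ∀ u i, i < n u → x u i ≤ δ u) (hδ0 : ∀ u, 0 ≤ δ u)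
    (hno : ∀ u i j, i < n u → j < n u → i ≠ j → t u i ≤ s u j ∨ t u j ≤ s u i)
    (huniq : ∀ u v j i i', u < v → j < n v → i < n u → i' < n u →
      ¬ (t v j ≤ s u i ∨ t u i ≤ s v j) → ¬ (t v j ≤ s u i' ∨ t u i' ≤ s v j) → i = i')
include hg hl hK hε hA hcond hM hx0 hxa hxδ hδ0 hno huniq

theorem select (T : ℕ) : ∀ (u : ℕ) (al : ℕ → Finset ℕ), (∀ v, al v ⊆ range (n v)) →
    ∃ (P : Finset (ℕ × ℕ)) (ρ : ℕ × ℕ → ℕ),
      (∀ p ∈ P, u ≤ p.1 ∧ p.1 < u + T ∧ p.2 ∈ al p.1) ∧
      (∀ p ∈ P, ∀ q ∈ P, p ≠ q → t p.1 p.2 ≤ s q.1 q.2 ∨ t q.1 q.2 ≤ s p.1 p.2) ∧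
      Set.InjOn ρ P ∧ (∀ p ∈ P, M p.1 ≤ ρ p) ∧
      (1 - 1 / (K : ℝ)) ^ T * (∑ v ∈ Ico u (u + T), ∑ j ∈ al v, x v j * (1 / lam j)) / (ε * K) -
        ∑ v ∈ Ico u (u + T), ((A + 2 * H lam K) * δ v / (ε * K) + δ v * H gam (M v)) ≤
        ∑ p ∈ P, x p.1 p.2 * (1 / gam (ρ p)) := by
  classical
  have hKr : (0 : ℝ) < K := by exact_mod_cast hK
  have hKr1 : (1 : ℝ) ≤ K := by exact_mod_cast hK
  have hεK : 0 < ε * K := by positivity
  have hMmono : Monotone M := monotone_nat_of_le_succ fun u => by rw [hM]; omega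
  have hθ0 : 0 ≤ 1 - 1 / (K : ℝ) := by
    rw [sub_nonneg, div_le_one hKr]; exact hKr1
  have hθ1 : 1 - 1 / (K : ℝ) ≤ 1 := by
    have : 0 ≤ 1 / (K : ℝ) := by positivity
    linarith
  induction T with
  | zero =>
    intro u al _
    refine ⟨∅, fun _ => 0, by simp, by simp, by simp, by simp, by simp⟩
  | succ T ih =>
    intro u al hal
    obtain ⟨e, he1, he2, he3, he4⟩ := enum (al u)
    obtain ⟨q, hq⟩ : ∃ q, q = (al u).card := ⟨_, rfl⟩
    rw [← hq] at he1 he2 he3
    have hen : ∀ k < q, e k < n u := fun k hk => mem_range.mp (hal u (he1 k hk))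
    have hqn : q ≤ n u := by
      rw [hq]; simpa using card_le_card (hal u)
    have hinj : ∀ k < q, ∀ l < q, e k = e l → k = l := by
      intro k hk l hl h
      rcases lt_trichotomy k l with h1 | h1 | h1
      · exact absurd h (he2 k l h1 hl).ne
      · exact h1
      · exact absurd h (he2 l k h1 hk).ne'
    -- the classes
    obtain ⟨Ar, hAr⟩ : ∃ Ar : ℕ → Finset ℕ, Ar = fun r =>
      ((range q).filter (fun k => k % K = r)).image e := ⟨_, rfl⟩
    have hArmem : ∀ r i, i ∈ Ar r ↔ ∃ k, k < q ∧ k % K = r ∧ e k = i := by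
      intro r i
      rw [hAr]
      simp only [mem_image, mem_filter, mem_range]
      constructor
      · rintro ⟨k, ⟨h1, h2⟩, h3⟩; exact ⟨k, h1, h2, h3⟩
      · rintro ⟨k, h1, h2, h3⟩; exact ⟨k, ⟨h1, h2⟩, h3⟩
    obtain ⟨alr, halr⟩ : ∃ alr : ℕ → ℕ → Finset ℕ, alr = fun r v =>
      (al v).filter (fun j => ∀ i ∈ Ar r, t v j ≤ s u i ∨ t u i ≤ s v j) := ⟨_, rfl⟩
    have ha0 : ∀ v j, 0 ≤ x v j * (1 / lam j) := fun v j =>
      mul_nonneg (hx0 v j) (inv_nonneg' hl j)
    obtain ⟨Q, hQ⟩ : ∃ Q, Q = ∑ v ∈ Ico (u + 1) (u + 1 + T), ∑ j ∈ al v, x v j * (1 / lam j) :=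
      ⟨_, rfl⟩
    obtain ⟨Sr, hSr⟩ : ∃ Sr : ℕ → ℝ, Sr = fun r => ∑ v ∈ Ico (u + 1) (u + 1 + T),
      ∑ j ∈ alr r v, x v j * (1 / lam j) := ⟨_, rfl⟩
    have hcount : ∀ v ∈ Ico (u + 1) (u + 1 + T), ∀ j ∈ al v, (K : ℝ) - 1 ≤
        (((range K).filter (fun r => j ∈ alr r v)).card : ℝ) := by
      intro v hv j hj
      have h1 : ((range K).filter (fun r => ¬ j ∈ alr r v)).card ≤ 1 := by
        rw [card_le_one]
        intro r hr r' hr'
        rw [mem_filter, halr] at hr hr'
        simp only [mem_filter, hj, true_and, not_forall] at hr hr'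
        obtain ⟨-, i, hi, hov⟩ := hr
        obtain ⟨-, i', hi', hov'⟩ := hr'
        obtain ⟨k, hk, hkr, hki⟩ := (hArmem r i).mp hi
        obtain ⟨k', hk', hkr', hki'⟩ := (hArmem r' i').mp hi'
        have hii : i = i' := huniq u v j i i' (by rw [mem_Ico] at hv; omega)
          (mem_range.mp (hal v hj)) (by rw [← hki]; exact hen k hk)
          (by rw [← hki']; exact hen k' hk') hov hov'
        have hkk : k = k' := hinj k hk k' hk' (by rw [hki, hki', hii])
        rw [← hkr, ← hkr', hkk]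
      have h2 : ((range K).filter (fun r => j ∈ alr r v)).card +
          ((range K).filter (fun r => ¬ j ∈ alr r v)).card = K := by
        have := Finset.card_filter_add_card_filter_not (s := range K) (fun r => j ∈ alr r v)
        rwa [card_range] at this
      have h3 : K - 1 ≤ ((range K).filter (fun r => j ∈ alr r v)).card := by omega
      have h4 : ((K - 1 : ℕ) : ℝ) ≤ (((range K).filter (fun r => j ∈ alr r v)).card : ℝ) := by
        exact_mod_cast h3
      rw [Nat.cast_sub hK] at h4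
      simpa using h4
    have hsumS : ((K : ℝ) - 1) * Q ≤ ∑ r ∈ range K, Sr r := by
      rw [hSr, sum_comm, hQ, mul_sum]
      apply sum_le_sum
      intro v hv
      have e1 : ∑ r ∈ range K, ∑ j ∈ alr r v, x v j * (1 / lam j) =
          ∑ j ∈ al v, (((range K).filter (fun r => j ∈ alr r v)).card : ℝ) *
            (x v j * (1 / lam j)) := by
        have e2 : ∀ r, ∑ j ∈ alr r v, x v j * (1 / lam j) =
            ∑ j ∈ al v, if j ∈ alr r v then x v j * (1 / lam j) else 0 := by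
          intro r
          rw [← sum_filter]
          apply sum_congr _ (fun _ _ => rfl)
          ext j
          rw [mem_filter]
          constructor
          · intro h; exact ⟨by rw [halr] at h; exact (mem_filter.mp h).1, h⟩
          · intro h; exact h.2
        simp_rw [e2]
        rw [sum_comm]
        apply sum_congr rfl
        intro j _
        rw [← sum_filter, sum_const, nsmul_eq_mul]
      rw [e1, mul_sum]
      apply sum_le_sum
      intro j hj
      exact mul_le_mul_of_nonneg_right (hcount v hv j hj) (ha0 v j)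
    obtain ⟨r, hr, hSrr⟩ : ∃ r, r < K ∧ (1 - 1 / (K : ℝ)) * Q ≤ Sr r := by
      by_contra hcon
      push Not at hcon
      have h1 : ∑ r ∈ range K, Sr r < ∑ r ∈ range K, (1 - 1 / (K : ℝ)) * Q := by
        apply sum_lt_sum_of_nonempty
        · exact ⟨0, mem_range.mpr hK⟩
        · intro r hr; exact hcon r (mem_range.mp hr)
      rw [sum_const, card_range, nsmul_eq_mul] at h1
      have h2 : (K : ℝ) * ((1 - 1 / (K : ℝ)) * Q) = ((K : ℝ) - 1) * Q := by
        field_simp
      linarith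
    obtain ⟨P', ρ', hP1, hP2, hP3, hP4, hP5⟩ := ih (u + 1) (alr r) (fun v => by
      rw [halr]; exact (filter_subset _ _).trans (hal v))
    obtain ⟨rk, hrk⟩ : ∃ rk : ℕ → ℕ, ∀ k < q, rk (e k) = k :=
      ⟨Function.invFunOn e (Set.Iio q), fun k hk =>
        Set.InjOn.leftInvOn_invFunOn (s := Set.Iio q)
          (fun k hk l hl h => hinj k hk l hl h) hk⟩
    obtain ⟨P0, hP0⟩ : ∃ P0 : Finset (ℕ × ℕ), P0 = (Ar r).image (fun i => (u, i)) := ⟨_, rfl⟩
    have hP0mem : ∀ p, p ∈ P0 ↔ ∃ k, k < q ∧ k % K = r ∧ p = (u, e k) := by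
      intro p
      rw [hP0]
      simp only [mem_image, hArmem]
      constructor
      · rintro ⟨i, ⟨k, h1, h2, rfl⟩, rfl⟩; exact ⟨k, h1, h2, rfl⟩
      · rintro ⟨k, h1, h2, rfl⟩; exact ⟨e k, ⟨k, h1, h2, rfl⟩, rfl⟩
    obtain ⟨ρ, hρ⟩ : ∃ ρ : ℕ × ℕ → ℕ, ρ = fun p => if p.1 = u then M u + rk p.2 / K else ρ' p :=
      ⟨_, rfl⟩
    have hρ0 : ∀ k < q, ρ (u, e k) = M u + k / K := by
      intro k hk; rw [hρ]; simp [hrk k hk]
    have hρ1 : ∀ p ∈ P', ρ p = ρ' p := by
      intro p hp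
      have := (hP1 p hp).1
      rw [hρ]; simp only
      rw [if_neg (by omega)]
    have hdisj : Disjoint P0 P' := by
      rw [disjoint_left]
      intro p h1 h2
      obtain ⟨k, _, _, rfl⟩ := (hP0mem p).mp h1
      have := (hP1 _ h2).1
      simp only at this
      omega
    have hρlt : ∀ k < q, ρ (u, e k) < M (u + 1) := by
      intro k hk
      rw [hρ0 k hk, hM]
      have := Nat.div_le_self k K
      omega
    refine ⟨P0 ∪ P', ρ, ?_, ?_, ?_, ?_, ?_⟩
    · intro p hp
      rcases mem_union.mp hp with h | h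
      · obtain ⟨k, hk, _, rfl⟩ := (hP0mem p).mp h
        exact ⟨le_refl _, by simp, he1 k hk⟩
      · obtain ⟨h1, h2, h3⟩ := hP1 p h
        rw [halr] at h3
        exact ⟨by omega, by omega, (mem_filter.mp h3).1⟩
    · have hcross : ∀ p ∈ P0, ∀ q ∈ P', t q.1 q.2 ≤ s p.1 p.2 ∨ t p.1 p.2 ≤ s q.1 q.2 := by
        intro p hp q' hq'
        obtain ⟨k, hk, hkr, rfl⟩ := (hP0mem p).mp hp
        have h3 := (hP1 q' hq').2.2
        rw [halr] at h3
        exact (mem_filter.mp h3).2 (e k) ((hArmem r (e k)).mpr ⟨k, hk, hkr, rfl⟩)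
      intro p hp q' hq' hne
      rcases mem_union.mp hp with h | h <;> rcases mem_union.mp hq' with h' | h'
      · obtain ⟨k, hk, _, rfl⟩ := (hP0mem p).mp h
        obtain ⟨l, hl, _, rfl⟩ := (hP0mem q').mp h'
        apply hno u _ _ (hen k hk) (hen l hl)
        intro h2
        exact hne (by rw [h2])
      · exact (hcross p h q' h').symm
      · exact hcross q' h' p h
      · exact hP2 p h q' h' hne
    · intro p hp q' hq' hpq
      rw [mem_coe] at hp hq'
      rcases mem_union.mp hp with h | h <;> rcases mem_union.mp hq' with h' | h'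
      · obtain ⟨k, hk, hkr, rfl⟩ := (hP0mem p).mp h
        obtain ⟨l, hl, hlr, rfl⟩ := (hP0mem q').mp h'
        rw [hρ0 k hk, hρ0 l hl] at hpq
        have h1 := Nat.div_add_mod k K
        have h2 := Nat.div_add_mod l K
        have h3 : k / K = l / K := by omega
        rw [hkr, h3] at h1
        rw [hlr] at h2
        have : k = l := by omega
        rw [this]
      · exfalso
        obtain ⟨k, hk, hkr, rfl⟩ := (hP0mem p).mp h
        have h1 := hρlt k hk
        have h2 := hP4 q' h'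
        have h3 := hMmono (hP1 q' h').1
        rw [hpq, hρ1 q' h'] at h1
        omega
      · exfalso
        obtain ⟨k, hk, hkr, rfl⟩ := (hP0mem q').mp h'
        have h1 := hρlt k hk
        have h2 := hP4 p h
        have h3 := hMmono (hP1 p h).1
        rw [← hpq, hρ1 p h] at h1
        omega
      · rw [hρ1 p h, hρ1 q' h'] at hpq
        exact hP3 h h' hpq
    · intro p hp
      rcases mem_union.mp hp with h | h
      · obtain ⟨k, hk, hkr, rfl⟩ := (hP0mem p).mp h
        rw [hρ0 k hk]; simp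
      · rw [hρ1 p h]; exact hP4 p h
    · rw [sum_union hdisj]
      have hs1 : ∑ p ∈ P', x p.1 p.2 * (1 / gam (ρ p)) = ∑ p ∈ P', x p.1 p.2 * (1 / gam (ρ' p)) :=
        sum_congr rfl fun p hp => by rw [hρ1 p hp]
      obtain ⟨y, hy⟩ : ∃ y : ℕ → ℝ, y = fun k => if k < q then x u (e k) else 0 := ⟨_, rfl⟩
      have hyk : ∀ k < q, y k = x u (e k) := fun k hk => by rw [hy]; simp [hk]
      have hyk0 : ∀ k, q ≤ k → y k = 0 := fun k hk => by rw [hy]; simp [not_lt.mpr hk]
      have hs0 : ∑ p ∈ P0, x p.1 p.2 * (1 / gam (ρ p)) =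
          ∑ k ∈ (range q).filter (fun k => k % K = r), y k * (1 / gam (M u + k / K)) := by
        symm
        apply sum_bij (fun k _ => (u, e k))
        · intro k hk
          rw [mem_filter, mem_range] at hk
          exact (hP0mem _).mpr ⟨k, hk.1, hk.2, rfl⟩
        · intro k hk l hl h
          rw [mem_filter, mem_range] at hk hl
          exact hinj k hk.1 l hl.1 (Prod.mk.inj h).2
        · intro p hp
          obtain ⟨k, hk, hkr, rfl⟩ := (hP0mem p).mp hp
          exact ⟨k, mem_filter.mpr ⟨mem_range.mpr hk, hkr⟩, rfl⟩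
        · intro k hk
          rw [mem_filter, mem_range] at hk
          rw [hyk k hk.1, hρ0 k hk.1]
      have hya : Antitone y := by
        intro k l hkl
        rcases lt_or_ge l q with h | h
        · rw [hyk l h, hyk k (lt_of_le_of_lt hkl h)]
          rcases hkl.eq_or_lt with h1 | h1
          · rw [h1]
          · exact hxa u _ _ (he2 k l h1 h).le (hen l h)
        · rw [hyk0 l h, hy]
          simp only
          split_ifs
          · exact hx0 _ _
          · exact le_refl _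
      have hy0 : ∀ k, 0 ≤ y k := by
        intro k; rw [hy]; simp only
        split_ifs
        · exact hx0 _ _
        · exact le_refl _
      have hyδ : y 0 ≤ δ u := by
        rcases Nat.eq_zero_or_pos q with h | h
        · rw [hyk0 0 (by omega)]; exact hδ0 u
        · rw [hyk 0 h]; exact hxδ u _ (hen 0 h)
      have hgain := gain hg hl K hK ε A hε hA hcond y hya hy0 q hyk0 (δ u) hyδ (M u) r hr
      have hW : ∑ j ∈ al u, x u j * (1 / lam j) ≤ ∑ k ∈ range q, y k * (1 / lam k) := by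
        rw [he4, ← hq]
        apply sum_le_sum
        intro k hk
        rw [mem_range] at hk
        rw [hyk k hk]
        exact mul_le_mul_of_nonneg_left (inv_anti hl (he3 k hk)) (hx0 _ _)
      rw [hs0, hs1]
      have e1 : u + (T + 1) = u + 1 + T := by ring
      have sp1 : ∑ v ∈ Ico u (u + 1 + T), ∑ j ∈ al v, x v j * (1 / lam j) =
          ∑ j ∈ al u, x u j * (1 / lam j) + Q := by
        rw [sum_eq_sum_Ico_succ_bot (by omega), ← hQ]
      have sp2 : ∑ v ∈ Ico u (u + 1 + T),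
            ((A + 2 * H lam K) * δ v / (ε * K) + δ v * H gam (M v)) =
          ((A + 2 * H lam K) * δ u / (ε * K) + δ u * H gam (M u)) +
          ∑ v ∈ Ico (u + 1) (u + 1 + T),
            ((A + 2 * H lam K) * δ v / (ε * K) + δ v * H gam (M v)) := by
        rw [sum_eq_sum_Ico_succ_bot (by omega)]
      rw [e1, sp1, sp2]
      have hSr' : Sr r = ∑ v ∈ Ico (u + 1) (u + 1 + T), ∑ j ∈ alr r v, x v j * (1 / lam j) := by
        rw [hSr]
      rw [← hSr'] at hP5
      have hW0 : 0 ≤ ∑ j ∈ al u, x u j * (1 / lam j) := sum_nonneg fun j _ => ha0 u j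
      have hθT0 : 0 ≤ (1 - 1 / (K : ℝ)) ^ T := pow_nonneg hθ0 T
      have hθT1 : (1 - 1 / (K : ℝ)) ^ (T + 1) ≤ 1 := pow_le_one₀ hθ0 hθ1
      generalize (∑ j ∈ al u, x u j * (1 / lam j)) = W at *
      have h1 : (1 - 1 / (K : ℝ)) ^ (T + 1) * (W + Q) / (ε * K) ≤
          W / (ε * K) + (1 - 1 / (K : ℝ)) ^ T * Sr r / (ε * K) := by
        rw [← add_div]
        apply div_le_div_of_nonneg_right _ hεK.le
        have h2 : (1 - 1 / (K : ℝ)) ^ (T + 1) * W ≤ W := mul_le_of_le_one_left hW0 hθT1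
        have h3 : (1 - 1 / (K : ℝ)) ^ (T + 1) * Q ≤ (1 - 1 / (K : ℝ)) ^ T * Sr r := by
          rw [pow_succ, mul_assoc]
          exact mul_le_mul_of_nonneg_left hSrr hθT0
        linarith
      have h2 : (W - (A + 2 * H lam K) * δ u) / (ε * K) ≤
          (∑ k ∈ range q, y k * (1 / lam k) - (A + 2 * H lam K) * δ u) / (ε * K) := by
        apply div_le_div_of_nonneg_right _ hεK.le
        linarith
      rw [sub_div] at h2
      linarith

end

end Pool.Agent.X185.LB
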