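import Pool.Agent.X185.LB.Pick
set_option autoImplicit false
set_option linter.all false

open Finset Filter Topology

noncomputable section

namespace Pool.Agent.X185.LB

/-- the criterion -/
def Crit (gam lam : ℕ → ℝ) : Prop :=
  ∀ ε > 0, ∃ K : ℕ, 1 ≤ K ∧ ∀ᶠ n in atTop, H lam (K * n) ≤ ε * (K * H gam n)

theorem lam_tendsto {gam lam : ℕ → ℝ} (hg : IsLambda gam) (hl : IsLambda lam)
    (hcrit : Crit gam lam) : Tendsto lam atTop atTop := by
  apply tendsto_atTop_mono' atTop (f₁ := lam) (Filter.Eventually.of_forall fun _ => le_refl _)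
  apply Filter.tendsto_atTop_atTop.mpr
  intro B
  by_contra hcon
  push Not at hcon
  have hB : ∀ i, lam i < max B 1 := by
    intro i
    obtain ⟨j, hij, hj⟩ := hcon i
    exact lt_of_le_of_lt (hl.mono hij) (hj.trans_le (le_max_left _ _))
  have hB0 : 0 < max B 1 := lt_of_lt_of_le one_pos (le_max_right _ _)
  obtain ⟨K, hK, hev⟩ := hcrit (gam 0 / (2 * max B 1)) (div_pos (hg.pos 0) (by positivity))
  obtain ⟨n, hn1, hn⟩ := (hev.and (eventually_ge_atTop 1)).exists
  have hKr : (1 : ℝ) ≤ K := by exact_mod_cast hK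
  have hnr : (1 : ℝ) ≤ n := by exact_mod_cast hn
  have h1 : (K * n : ℝ) * (1 / max B 1) ≤ H lam (K * n) := by
    have := card_nsmul_le_sum (range (K * n)) (fun s => 1 / lam s) (1 / max B 1)
      (fun s hs => one_div_le_one_div_of_le (hl.pos s) (hB s).le)
    simpa [H] using this
  have h2 : H gam n ≤ n * (1 / gam 0) := by
    have := sum_le_card_nsmul (range n) (fun s => 1 / gam s) (1 / gam 0)
      (fun s hs => inv_anti hg (Nat.zero_le s))
    simpa [H] using this
  have h3 : gam 0 / (2 * max B 1) * (K * H gam n) ≤ gam 0 / (2 * max B 1) * (K * (n * (1 / gam 0))) :=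
    mul_le_mul_of_nonneg_left (mul_le_mul_of_nonneg_left h2 (by positivity))
      (div_pos (hg.pos 0) (by positivity)).le
  have h4 : gam 0 / (2 * max B 1) * (K * (n * (1 / gam 0))) = (K * n : ℝ) * (1 / max B 1) / 2 := by
    have := (hg.pos 0).ne'
    field_simp
  have h5 : 0 < (K * n : ℝ) * (1 / max B 1) := by positivity
  linarith

theorem core {gam lam : ℕ → ℝ} (hg : IsLambda gam) (hl : IsLambda lam)
    (hcrit : Crit gam lam) {a b : ℝ} {f : ℝ → ℝ} (V0 : ℝ)
    (hV : ∀ F : Fam a b, F.sum gam f ≤ V0) (η : ℝ) (hη : 0 < η) :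
    ∃ m, ∀ F : Fam a b, F.sum (shift lam m) f ≤ 3 * η := by
  classical
  by_contra hcon
  have hfail : ∀ m, ∃ F : Fam a b, 3 * η < F.sum (shift lam m) f := by
    intro m
    by_contra h
    push Not at h
    exact hcon ⟨m, h⟩
  have hV0 : 0 ≤ V0 := by
    have := hV ⟨0, fun _ => 0, fun _ => 0, by simp, by simp⟩
    simpa [Fam.sum] using this
  have hinf := lam_tendsto hg hl hcrit
  obtain ⟨ε, hεd⟩ : ∃ ε, ε = η / (4 * (V0 + 2)) := ⟨_, rfl⟩
  have hε : 0 < ε := by rw [hεd]; positivity
  obtain ⟨K, hK, hev⟩ := hcrit ε hε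
  obtain ⟨n0, hn0⟩ := eventually_atTop.mp hev
  have hKr : (1 : ℝ) ≤ K := by exact_mod_cast hK
  obtain ⟨K', hK'⟩ : ∃ K', K' = 2 * K := ⟨_, rfl⟩
  have hK'1 : 1 ≤ K' := by omega
  have hK'r : (K' : ℝ) = 2 * K := by rw [hK']; push_cast; ring
  obtain ⟨A, hA⟩ : ∃ A, A = H lam (K' * n0) := ⟨_, rfl⟩
  have hA0 : 0 ≤ A := by rw [hA]; exact H_nonneg hl _
  have hcond : ∀ n, H lam (K' * n) ≤ ε * (K' * H gam n) + A := by
    intro n
    rcases le_or_gt n0 n with h | h
    · have h1 := hn0 n h
      have h2 := H_mul_le hl 2 (K * n)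
      have e : 2 * (K * n) = K' * n := by rw [hK']; ring
      rw [e] at h2
      rw [hK'r]
      push_cast at h2
      nlinarith
    · have h1 : H lam (K' * n) ≤ A := by
        rw [hA]; exact H_mono hl (Nat.mul_le_mul_left K' h.le)
      have h2 : 0 ≤ ε * (K' * H gam n) :=
        mul_nonneg hε.le (mul_nonneg (Nat.cast_nonneg _) (H_nonneg hg n))
      linarith
  have hεK : 0 < ε * K' := by rw [hK'r]; positivity
  have hdl : ∀ M : ℕ, ∃ δ : ℝ, 0 < δ ∧
      (A + 2 * H lam K') * δ / (ε * K') + δ * H gam M ≤ 1 / K := by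
    intro M
    obtain ⟨C, hC⟩ : ∃ C, C = (A + 2 * H lam K') / (ε * K') + H gam M := ⟨_, rfl⟩
    have hC0 : 0 ≤ C := by
      rw [hC]
      have h1 := H_nonneg hl K'
      have h2 := H_nonneg hg M
      positivity
    refine ⟨(1 / K) / (C + 1), by positivity, ?_⟩
    have e : (A + 2 * H lam K') * (1 / (K : ℝ) / (C + 1)) / (ε * K') +
        (1 / (K : ℝ) / (C + 1)) * H gam M = (1 / (K : ℝ) / (C + 1)) * C := by
      rw [hC]; ring
    rw [e]
    have h1 : (1 / (K : ℝ) / (C + 1)) * C = 1 / K * (C / (C + 1)) := by ring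
    rw [h1]
    have h2 : C / (C + 1) ≤ 1 := by rw [div_le_one (by linarith)]; linarith
    exact mul_le_of_le_one_right (by positivity) h2
  choose dl hdl0 hdl1 using hdl
  choose nxt hn1 hn2 hn3 hn4 hn5 using fun (p : Finset ℝ × ℕ) =>
    pick hg hl hinf V0 hV η hη hfail (dl p.2) (hdl0 p.2) p.1
  obtain ⟨st, hst⟩ : ∃ st : ℕ → Finset ℝ × ℕ, ∀ u, st (u + 1) =
      ((st u).1 ∪ ((range (nxt (st u)).n).image (nxt (st u)).s ∪
        (range (nxt (st u)).n).image (nxt (st u)).t), (st u).2 + (nxt (st u)).n) :=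
    ⟨fun u => Nat.rec (∅, 0) (fun _ p => (p.1 ∪ ((range (nxt p).n).image (nxt p).s ∪
      (range (nxt p).n).image (nxt p).t), p.2 + (nxt p).n)) u, fun u => rfl⟩
  have hmono : Monotone fun u => (st u).1 := by
    apply monotone_nat_of_le_succ
    intro u
    rw [hst]
    exact subset_union_left
  have hsE : ∀ u v i, u < v → i < (nxt (st u)).n → (nxt (st u)).s i ∈ (st v).1 := by
    intro u v i huv hi
    apply hmono (Nat.succ_le_of_lt huv)
    simp only [Nat.succ_eq_add_one, hst]
    apply mem_union_right; apply mem_union_left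
    exact mem_image_of_mem _ (mem_range.mpr hi)
  have htE : ∀ u v i, u < v → i < (nxt (st u)).n → (nxt (st u)).t i ∈ (st v).1 := by
    intro u v i huv hi
    apply hmono (Nat.succ_le_of_lt huv)
    simp only [Nat.succ_eq_add_one, hst]
    apply mem_union_right; apply mem_union_right
    exact mem_image_of_mem _ (mem_range.mpr hi)
  obtain ⟨P, ρ, hP1, hP2, hP3, hP4, hP5⟩ := select hg hl K' hK'1 ε A hε hA0 hcond
    (fun u => (nxt (st u)).n) (fun u => (nxt (st u)).s) (fun u => (nxt (st u)).t)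
    (fun u i => |f ((nxt (st u)).t i) - f ((nxt (st u)).s i)|) (fun u => (st u).2)
    (fun u => dl (st u).2) (fun u => by rw [hst]) (fun u i => abs_nonneg _)
    (fun u i j hij hj => hn4 (st u) i j hij hj)
    (fun u i hi => hn2 (st u) i hi) (fun u => (hdl0 _).le)
    (fun u i j hi hj hij => (nxt (st u)).nonov i hi j hj hij)
    (by
      intro u v j i i' huv hj hi hi' hov hov'
      by_contra hne
      push Not at hov hov'
      have a1 := hn3 (st v) j hj _ (hsE u v i huv hi)
      have a2 := hn3 (st v) j hj _ (htE u v i huv hi)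
      have a3 := hn3 (st v) j hj _ (hsE u v i' huv hi')
      have a4 := hn3 (st v) j hj _ (htE u v i' huv hi')
      have a5 := hn1 (st v) j hj
      have b1 : (nxt (st u)).s i ≤ (nxt (st v)).s j := by
        rcases a1 with h | h
        · exact h
        · linarith [hov.1]
      have b2 : (nxt (st v)).t j ≤ (nxt (st u)).t i := by
        rcases a2 with h | h
        · linarith [hov.2]
        · exact h
      have b3 : (nxt (st u)).s i' ≤ (nxt (st v)).s j := by
        rcases a3 with h | h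
        · exact h
        · linarith [hov'.1]
      have b4 : (nxt (st v)).t j ≤ (nxt (st u)).t i' := by
        rcases a4 with h | h
        · linarith [hov'.2]
        · exact h
      rcases (nxt (st u)).nonov i hi i' hi' hne with h | h <;> linarith)
    K 0 (fun v => range (nxt (st v)).n) (fun v => Subset.refl _)
  have hup := inj_bound hg V0 hV P (fun p => (nxt (st p.1)).s p.2) (fun p => (nxt (st p.1)).t p.2)
    ρ (fun p hp => by
      have h1 := (hP1 p hp).2.2
      exact (nxt (st p.1)).sub p.2 (mem_range.mp h1))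
    (fun p hp q hq hpq => hP2 p hp q hq hpq) hP3
  have hlow : (K : ℝ) * (2 * η) ≤ ∑ v ∈ Ico 0 (0 + K), ∑ j ∈ range (nxt (st v)).n,
      |f ((nxt (st v)).t j) - f ((nxt (st v)).s j)| * (1 / lam j) := by
    have := card_nsmul_le_sum (Ico 0 (0 + K)) (fun v => ∑ j ∈ range (nxt (st v)).n,
      |f ((nxt (st v)).t j) - f ((nxt (st v)).s j)| * (1 / lam j)) (2 * η)
      (fun v _ => hn5 (st v))
    simpa using this
  have herr : ∑ v ∈ Ico 0 (0 + K), ((A + 2 * H lam K') * dl (st v).2 / (ε * K') +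
      dl (st v).2 * H gam (st v).2) ≤ 1 := by
    have := sum_le_card_nsmul (Ico 0 (0 + K)) (fun v => ((A + 2 * H lam K') * dl (st v).2 / (ε * K') +
      dl (st v).2 * H gam (st v).2)) (1 / K) (fun v _ => hdl1 (st v).2)
    refine this.trans (le_of_eq ?_)
    rw [Nat.card_Ico, zero_add, Nat.sub_zero, nsmul_eq_mul]
    field_simp
  have hbern : 1 / 2 ≤ (1 - 1 / (K' : ℝ)) ^ K := by
    have h0 : 1 / (K' : ℝ) ≤ 1 := by
      rw [div_le_one (by rw [hK'r]; positivity), hK'r]; linarith
    have h1 := one_add_mul_le_pow (a := -(1 / (K' : ℝ))) (by linarith) K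
    rw [← sub_eq_add_neg] at h1
    refine le_trans (le_of_eq ?_) h1
    rw [hK'r]
    field_simp
    norm_num
  obtain ⟨Q, hQ⟩ : ∃ Q, Q = ∑ v ∈ Ico 0 (0 + K), ∑ j ∈ range (nxt (st v)).n,
      |f ((nxt (st v)).t j) - f ((nxt (st v)).s j)| * (1 / lam j) := ⟨_, rfl⟩
  rw [← hQ] at hlow hP5
  have h1 : η / (2 * ε) ≤ (1 - 1 / (K' : ℝ)) ^ K * Q / (ε * K') := by
    rw [div_le_div_iff₀ (by positivity) hεK]
    have h2 : 1 / 2 * (K * (2 * η)) ≤ (1 - 1 / (K' : ℝ)) ^ K * Q :=
      mul_le_mul hbern hlow (by positivity) (by linarith)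
    have e : η * (ε * K') = 1 / 2 * (K * (2 * η)) * (2 * ε) := by rw [hK'r]; ring
    rw [e]
    exact mul_le_mul_of_nonneg_right h2 (by positivity)
  have h2 : η / (2 * ε) = 2 * (V0 + 2) := by
    rw [hεd]
    field_simp
    ring
  linarith

theorem V_shift_anti {lam : ℕ → ℝ} (hl : IsLambda lam) {a b : ℝ} (f : ℝ → ℝ) {m m' : ℕ}
    (h : m ≤ m') : V (shift lam m') a b f ≤ V (shift lam m) a b f := by
  apply iSup_mono
  intro F
  apply ENNReal.ofReal_le_ofReal
  apply sum_le_sum
  intro i _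
  exact div_le_div_of_nonneg_left (abs_nonneg _) (hl.pos _)
    (hl.mono (Nat.add_le_add_right h i))

theorem suff {gam lam : ℕ → ℝ} (hg : IsLambda gam) (hl : IsLambda lam)
    (hcrit : Crit gam lam) (a b : ℝ) : BV gam a b ⊆ BVc lam a b := by
  intro f hf
  obtain ⟨V0, hV0⟩ : ∃ V0, V0 = (V gam a b f).toReal := ⟨_, rfl⟩
  have hV : ∀ F : Fam a b, F.sum gam f ≤ V0 := by
    intro F; rw [hV0]; exact sum_le_of_V hf F
  have hcore := core hg hl hcrit V0 hV
  have hV00 : 0 ≤ V0 := by rw [hV0]; exact ENNReal.toReal_nonneg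
  refine ⟨?_, ?_⟩
  · obtain ⟨m, hm⟩ := hcore 1 one_pos
    have h1 : V lam a b f ≤ ENNReal.ofReal (V0 * gam 0 * H lam m + 3 * 1) := by
      apply V_le
      intro F
      have hX : ∀ i < F.n, |f (F.t i) - f (F.s i)| ≤ V0 * gam 0 := by
        intro i hi
        obtain ⟨h1, h2, h3⟩ := F.sub i hi
        exact one_le_V0 hg V0 hV _ _ h1 h2 h3
      have hXX : 0 ≤ V0 * gam 0 := mul_nonneg hV00 (hg.pos 0).le
      rcases le_or_gt F.n m with h | h
      · have h2 : F.sum lam f ≤ ∑ i ∈ range F.n, V0 * gam 0 * (1 / lam i) := by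
          unfold Fam.sum
          apply sum_le_sum
          intro i hi
          rw [div_eq_mul_one_div]
          exact mul_le_mul_of_nonneg_right (hX i (mem_range.mp hi)) (inv_nonneg' hl i)
        rw [← mul_sum] at h2
        have h3 : ∑ i ∈ range F.n, 1 / lam i ≤ H lam m := H_mono hl h
        have h4 := mul_le_mul_of_nonneg_left h3 hXX
        linarith
      · obtain ⟨d, hd⟩ := Nat.exists_eq_add_of_le h.le
        have h2 := hm ⟨d, fun i => F.s (m + i), fun i => F.t (m + i),
          fun i hi => F.sub _ (by omega), fun i hi j hj hij => F.nonov _ (by omega) _ (by omega)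
            (by omega)⟩
        unfold Fam.sum at h2 ⊢
        simp only [shift] at h2
        rw [hd, sum_range_add]
        have h3 : ∑ i ∈ range m, |f (F.t i) - f (F.s i)| / lam i ≤
            ∑ i ∈ range m, V0 * gam 0 * (1 / lam i) := by
          apply sum_le_sum
          intro i hi
          rw [div_eq_mul_one_div]
          exact mul_le_mul_of_nonneg_right (hX i (by have := mem_range.mp hi; omega))
            (inv_nonneg' hl i)
        rw [← mul_sum] at h3
        have h4 : ∑ i ∈ range m, 1 / lam i = H lam m := rfl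
        rw [h4] at h3
        linarith
    exact lt_of_le_of_lt h1 ENNReal.ofReal_lt_top
  · rw [ENNReal.tendsto_nhds_zero]
    intro ε hε
    by_cases htop : ε = ⊤
    · rw [htop]; exact Filter.Eventually.of_forall fun _ => le_top
    · have h1 : 0 < ε.toReal := ENNReal.toReal_pos hε.ne' htop
      obtain ⟨m, hm⟩ := hcore (ε.toReal / 3) (by positivity)
      filter_upwards [eventually_ge_atTop m] with m' hm'
      refine (V_shift_anti hl f hm').trans ?_
      have h2 := V_le hm
      rw [mul_div_cancel₀ _ (three_ne_zero), ENNReal.ofReal_toReal htop] at h2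
      exact h2

end Pool.Agent.X185.LB
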